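import Pool.Agent.Work.MP_0f91f8_co.Aut.Limit

/-!
Powers of blocks in a recurrent automaton.
-/

open Filter

namespace Pool.Agent.Work.MP_0f91f8_co.Aut

open Pool.Agent.Work.MP_0f91f8_co

/-- a recurrent level-dependent automaton with a word of minimal rank at level `0` -/
structure LimAut (b : ℕ) [NeZero b] (Q β : Type*) where
  p : Ultrafilter ℕ
  S : ℕ → Fin b → Q → Q
  x₀ : Q
  out : ℕ → Q → β
  L : ℕ
  w : ℕ
  hpK : ∀ K : ℕ, ∀ᶠ a in (p : Filter ℕ), K ≤ a
  hrec : ∀ H, ∀ᶠ a in (p : Filter ℕ), ∀ h ≤ H, S (h + a) = S h ∧ out (h + a) = out h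
  hpadd : ∀ P : ℕ → Prop, (∀ᶠ a in (p : Filter ℕ), P a) →
        ∀ᶠ a in (p : Filter ℕ), ∀ᶠ a' in (p : Filter ℕ), P (a + a')
  hw : w < b ^ L
  hmin : ∀ h ℓ N, (Set.range (run S 0 L w)).ncard ≤ (Set.range (run S h ℓ N)).ncard

namespace LimAut

variable {b : ℕ} [NeZero b] {Q β : Type*} [Finite Q] (D : LimAut b Q β)

/-- the word of minimal rank -/
def W : Q → Q := run D.S 0 D.L D.w

lemma exists_eta (h : ℕ) : ∃ η : Q → Q, ∀ᶠ y in (D.p : Filter ℕ), run D.S h (y - h) 0 = η :=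
  exists_lim D.p (fun y => run D.S h (y - h) 0)

/-- the limit of long runs over zeros -/
noncomputable def eta (h : ℕ) : Q → Q := (D.exists_eta h).choose

lemma eta_spec (h : ℕ) : ∀ᶠ y in (D.p : Filter ℕ), run D.S h (y - h) 0 = D.eta h :=
  (D.exists_eta h).choose_spec

omit [Finite Q] in
lemma run_rec {y ℓ : ℕ} (h : ∀ h < ℓ, D.S (h + y) = D.S h) : run D.S y ℓ = run D.S 0 ℓ := by
  funext N q
  apply run_congr
  intro i hi
  rw [zero_add, ← h i hi, add_comm]

/-- powers -/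
lemma blocks (hb : 1 < b) (R H : ℕ) : ∃ κ d : ℕ, 0 < κ ∧ ∀ t ≤ H, ∀ N, N < b ^ t →
    κ * N < b ^ (d + t) ∧ ∀ q, run D.S 0 (d + t) (κ * N) q =
      run D.S 0 t N ((fun q => D.eta t (run D.S 0 t N q))^[R] q) := by
  have hb0 : 0 < b := by omega
  induction R with
  | zero =>
    refine ⟨1, 0, one_pos, fun t _ N hN => ⟨by simpa using hN, fun q => ?_⟩⟩
    simp
  | succ R ih =>
    obtain ⟨κ, d, hκ, h⟩ := ih
    have hη : ∀ᶠ y in (D.p : Filter ℕ), ∀ t ∈ Finset.range (H + 1),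
        run D.S t (y - t) 0 = D.eta t :=
      (Filter.eventually_all_finset _).mpr (fun t _ => D.eta_spec t)
    obtain ⟨y, hy1, hy2, hy3⟩ := ((D.hpK H).and ((D.hrec (d + H)).and hη)).exists
    refine ⟨1 + b ^ y * κ, y + d, by omega, ?_⟩
    intro t ht N hN
    obtain ⟨g1, g2⟩ := h t ht N hN
    have hNy : N < b ^ y := lt_of_lt_of_le hN (Nat.pow_le_pow_right hb0 (by omega))
    have hmul : (1 + b ^ y * κ) * N = N + b ^ y * (κ * N) := by ring
    have hypos : 0 < b ^ y := by positivity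
    have e1 : y + d + t = y + (d + t) := by ring
    refine ⟨?_, ?_⟩
    · rw [hmul, e1, pow_add]
      calc N + b ^ y * (κ * N) < b ^ y + b ^ y * (κ * N) := by omega
        _ = b ^ y * (κ * N + 1) := by ring
        _ ≤ b ^ y * b ^ (d + t) := Nat.mul_le_mul_left _ g1
    · intro q
      rw [hmul, e1, run_add]
      have d1 : (N + b ^ y * (κ * N)) / b ^ y = κ * N := by
        rw [Nat.add_mul_div_left _ _ hypos, Nat.div_eq_of_lt hNy, Nat.zero_add]
      rw [d1]
      have d2 : run D.S 0 y (N + b ^ y * (κ * N)) q = run D.S 0 y N q := by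
        apply run_mod
        rw [Nat.add_mul_mod_self_left]
      rw [d2]
      have d3 : run D.S (0 + y) (d + t) = run D.S 0 (d + t) := by
        rw [zero_add]
        exact D.run_rec (fun x hx => (hy2 x (by omega)).1)
      rw [d3]
      have d4 : run D.S 0 y N q = D.eta t (run D.S 0 t N q) := by
        have e3 : y = t + (y - t) := by omega
        conv_lhs => rw [e3]
        rw [run_add, Nat.div_eq_of_lt hN, Nat.zero_add, hy3 t (Finset.mem_range.2 (by omega))]
      rw [d4, g2, Function.iterate_succ_apply]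

lemma inj_of_run (g : Q → Q) (h ℓ N : ℕ) (hg : ∀ q, run D.S h ℓ N q = D.W (g (D.W q))) :
    Set.InjOn (fun q => D.W (g q)) (Set.range D.W) := by
  have h1 : (Set.range D.W).ncard ≤ (Set.range (run D.S h ℓ N)).ncard := D.hmin h ℓ N
  have h2 : Set.range (run D.S h ℓ N) = (fun q => D.W (g q)) '' (Set.range D.W) := by
    ext x
    constructor
    · rintro ⟨q, rfl⟩
      exact ⟨D.W q, ⟨q, rfl⟩, (hg q).symm⟩
    · rintro ⟨_, ⟨q, rfl⟩, rfl⟩
      exact ⟨q, hg q⟩
  rw [h2] at h1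
  exact Set.injOn_of_ncard_image_eq (le_antisymm (Set.ncard_image_le (Set.toFinite _)) h1)
    (Set.toFinite _)

omit [Finite Q] in
lemma run_W {y N : ℕ} (h : ∀ h < D.L, D.S (h + y) = D.S h) (hN : N % b ^ D.L = D.w) (q : Q) :
    run D.S y D.L N q = D.W q := by
  rw [D.run_rec h]
  apply run_mod
  rw [hN, Nat.mod_eq_of_lt D.hw]

/-- the data of a number with the minimal word at two places -/
structure Win (i j t ℓ c N : ℕ) : Prop where
  hi : ∀ h < D.L, D.S (h + i) = D.S h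
  hj : ∀ h < D.L, D.S (h + j) = D.S h
  hij : i + D.L ≤ j
  ht : t < b ^ ℓ
  hℓ : D.L ≤ ℓ
  htw : t % b ^ D.L = D.w
  hcw : c / b ^ i % b ^ D.L = D.w
  hNc : N % b ^ (i + D.L) = c % b ^ (i + D.L)
  hNt : N / b ^ j = t

variable {D}

/-- the map between the last word and the first word of the following block -/
noncomputable def BB (D : LimAut b Q β) (i j t ℓ c : ℕ) (q : Q) : Q :=
  D.W (run D.S 0 i c (D.eta (j + ℓ) (run D.S (j + D.L) (ℓ - D.L) (t / b ^ D.L) q)))

lemma BB_inj (hb : 1 < b) {i j t ℓ c N : ℕ} (h : D.Win i j t ℓ c N) :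
    Set.InjOn (D.BB i j t ℓ c) (Set.range D.W) := by
  have hb0 : 0 < b := by omega
  obtain ⟨y, hy1, hy2, hy3⟩ := ((D.hpK (j + ℓ)).and ((D.hrec (i + D.L)).and
    (D.eta_spec (j + ℓ)))).exists
  refine D.inj_of_run (fun q => run D.S 0 i c (D.eta (j + ℓ)
    (run D.S (j + D.L) (ℓ - D.L) (t / b ^ D.L) q))) j
    (D.L + (ℓ - D.L) + (y - (j + ℓ)) + i + D.L) (t + b ^ (y - j) * (c % b ^ (i + D.L))) ?_
  intro q
  set c' := c % b ^ (i + D.L) with hc'
  set M := t + b ^ (y - j) * c' with hM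
  have hℓ := h.hℓ
  have e1 : D.L + (ℓ - D.L) = ℓ := by omega
  have e2 : ℓ + (y - (j + ℓ)) = y - j := by omega
  have htlt : t < b ^ (y - j) := lt_of_lt_of_le h.ht (Nat.pow_le_pow_right hb0 (by omega))
  have dM : M / b ^ (y - j) = c' := by
    rw [hM, Nat.add_mul_div_left _ _ (by positivity), Nat.div_eq_of_lt htlt, Nat.zero_add]
  -- last window
  rw [run_add]
  have r1 : ∀ q', run D.S (j + (D.L + (ℓ - D.L) + (y - (j + ℓ)) + i)) D.L
      (M / b ^ (D.L + (ℓ - D.L) + (y - (j + ℓ)) + i)) q' = D.W q' := by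
    intro q'
    have e3 : j + (D.L + (ℓ - D.L) + (y - (j + ℓ)) + i) = i + y := by omega
    have e4 : D.L + (ℓ - D.L) + (y - (j + ℓ)) + i = (y - j) + i := by omega
    rw [e3, e4, pow_add, ← Nat.div_div_eq_div_mul, dM]
    apply D.run_W
    · intro h' hh'
      have h1 := (hy2 (h' + i) (by omega)).1
      rw [← add_assoc, h1]
      exact h.hi h' hh'
    · rw [hc', pow_add, Nat.mod_mul_right_div_self, Nat.mod_mod]
      exact h.hcw
  rw [r1]
  congr 1
  -- low part
  rw [run_add]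
  have r2 : ∀ q', run D.S (j + (D.L + (ℓ - D.L) + (y - (j + ℓ)))) i
      (M / b ^ (D.L + (ℓ - D.L) + (y - (j + ℓ)))) q' = run D.S 0 i c q' := by
    intro q'
    have e3 : j + (D.L + (ℓ - D.L) + (y - (j + ℓ))) = y := by omega
    have e4 : D.L + (ℓ - D.L) + (y - (j + ℓ)) = y - j := by omega
    rw [e3, e4, dM, D.run_rec (fun x hx => (hy2 x (by omega)).1)]
    apply run_mod
    rw [hc', Nat.mod_mod_of_dvd _ (pow_dvd_pow b (Nat.le_add_right _ _))]
  rw [r2]
  congr 1
  -- zeros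
  rw [run_add]
  have r3 : ∀ q', run D.S (j + (D.L + (ℓ - D.L))) (y - (j + ℓ)) (M / b ^ (D.L + (ℓ - D.L))) q' =
      D.eta (j + ℓ) q' := by
    intro q'
    rw [e1, ← hy3]
    apply run_mod
    have e5 : b ^ (y - j) = b ^ ℓ * b ^ (y - (j + ℓ)) := by rw [← pow_add, e2]
    rw [hM, e5, mul_assoc, Nat.add_mul_div_left _ _ (by positivity), Nat.div_eq_of_lt h.ht,
      Nat.zero_add, Nat.mul_mod_right, Nat.zero_mod]
  rw [r3]
  congr 1
  -- top part
  rw [run_add]
  have e6 : b ^ (y - j) = b ^ D.L * b ^ (y - j - D.L) := by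
    rw [← pow_add]; congr 1; omega
  have r4 : ∀ q', run D.S (j + D.L) (ℓ - D.L) (M / b ^ D.L) q' =
      run D.S (j + D.L) (ℓ - D.L) (t / b ^ D.L) q' := by
    intro q'
    apply run_mod
    have e7 : b ^ (y - j - D.L) = b ^ (ℓ - D.L) * b ^ (y - (j + ℓ)) := by
      rw [← pow_add]; congr 1; omega
    rw [hM, e6, mul_assoc, Nat.add_mul_div_left _ _ (by positivity), e7, mul_assoc,
      Nat.add_mul_mod_self_left]
  rw [r4]
  congr 1
  apply D.run_W
  · intro h' hh'
    exact h.hj h' hh'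
  · rw [hM, e6, mul_assoc, Nat.add_mul_mod_self_left]
    exact h.htw

lemma power_val (hb : 1 < b) {R : ℕ} (hR : ∀ f : Q → Q, Set.MapsTo f (Set.range D.W)
      (Set.range D.W) → Set.InjOn f (Set.range D.W) → ∀ z ∈ Set.range D.W, f^[R + 1] z = z)
    {i j t ℓ c N : ℕ} (h : D.Win i j t ℓ c N) :
    ∃ z ∈ Set.range D.W, D.BB i j t ℓ c z = D.W (run D.S 0 i c D.x₀) ∧
      run D.S 0 (j + ℓ) N ((fun q => D.eta (j + ℓ) (run D.S 0 (j + ℓ) N q))^[R] D.x₀) =
        run D.S (j + D.L) (ℓ - D.L) (t / b ^ D.L) z := by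
  have hb0 : 0 < b := by omega
  have hij := h.hij
  have hℓ := h.hℓ
  set g : Q → Q := fun q => run D.S (i + D.L) (j - (i + D.L)) (N / b ^ (i + D.L)) q with hg
  set A : Q → Q := fun q => D.W (g q) with hA
  set Top : Q → Q := fun q => run D.S (j + D.L) (ℓ - D.L) (t / b ^ D.L) q with hTop
  have hNi : N / b ^ i % b ^ D.L = D.w := by
    have h1 : N / b ^ i % b ^ D.L = N % (b ^ i * b ^ D.L) / b ^ i := by
      rw [Nat.mod_mul_right_div_self]
    rw [h1, ← pow_add, h.hNc, pow_add, Nat.mod_mul_right_div_self]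
    exact h.hcw
  have hlow : ∀ q, run D.S 0 i N q = run D.S 0 i c q := by
    intro q
    apply run_mod
    have h1 : b ^ i ∣ b ^ (i + D.L) := pow_dvd_pow b (Nat.le_add_right _ _)
    rw [← Nat.mod_mod_of_dvd N h1, h.hNc, Nat.mod_mod_of_dvd c h1]
  have hj0 : ∀ q, run D.S 0 j N q = g (D.W (run D.S 0 i c q)) := by
    intro q
    have e : j = i + D.L + (j - (i + D.L)) := by omega
    conv_lhs => rw [e]
    rw [run_add, Nat.zero_add, run_add, Nat.zero_add, hlow,
      D.run_W (fun h' hh' => h.hi h' hh') hNi]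
  have hblock : ∀ q, run D.S 0 (j + ℓ) N q = Top (A (D.W (run D.S 0 i c q))) := by
    intro q
    rw [run_add, Nat.zero_add, hj0, h.hNt]
    have e : ℓ = D.L + (ℓ - D.L) := by omega
    conv_lhs => rw [e]
    rw [run_add, D.run_W (fun h' hh' => h.hj h' hh') h.htw]
  -- the block map is injective
  have hAinj : Set.InjOn A (Set.range D.W) := by
    refine D.inj_of_run g i (D.L + (j - (i + D.L)) + D.L) (N / b ^ i) ?_
    intro q
    have e1 : D.L + (j - (i + D.L)) = j - i := by omega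
    rw [run_add]
    have e2 : i + (D.L + (j - (i + D.L))) = j := by omega
    rw [e2]
    have r1 : ∀ q', run D.S j D.L (N / b ^ i / b ^ (D.L + (j - (i + D.L)))) q' = D.W q' := by
      intro q'
      apply D.run_W (fun h' hh' => h.hj h' hh')
      rw [Nat.div_div_eq_div_mul, ← pow_add, e2, h.hNt]
      exact h.htw
    rw [r1, run_add, D.run_W (fun h' hh' => h.hi h' hh') hNi, Nat.div_div_eq_div_mul, ← pow_add]
  have hAmaps : ∀ q, A q ∈ Set.range D.W := fun q => ⟨g q, rfl⟩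
  have hBmaps : ∀ q, D.BB i j t ℓ c q ∈ Set.range D.W := fun q => ⟨_, rfl⟩
  have hBinj := BB_inj hb h
  set x := D.W (run D.S 0 i c D.x₀) with hx
  have hxI : x ∈ Set.range D.W := ⟨_, rfl⟩
  have hiter : ∀ k, run D.S 0 (j + ℓ) N
      ((fun q => D.eta (j + ℓ) (run D.S 0 (j + ℓ) N q))^[k] D.x₀) =
      Top (A ((fun q => D.BB i j t ℓ c (A q))^[k] x)) := by
    intro k
    induction k with
    | zero =>
      rw [Function.iterate_zero_apply, Function.iterate_zero_apply, hblock]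
    | succ k ih =>
      rw [Function.iterate_succ_apply', ih, Function.iterate_succ_apply', hblock]
      rfl
  refine ⟨A ((fun q => D.BB i j t ℓ c (A q))^[R] x), hAmaps _, ?_, hiter R⟩
  have h3 := hR (fun q => D.BB i j t ℓ c (A q)) (fun q _ => hBmaps _)
    (fun q hq q' hq' hqq => hAinj hq hq' (hBinj (hAmaps q) (hAmaps q') hqq)) x hxI
  rw [Function.iterate_succ_apply'] at h3
  exact h3

lemma power_eq (hb : 1 < b) {R : ℕ} (hR : ∀ f : Q → Q, Set.MapsTo f (Set.range D.W)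
      (Set.range D.W) → Set.InjOn f (Set.range D.W) → ∀ z ∈ Set.range D.W, f^[R + 1] z = z)
    {i j t ℓ c N N' : ℕ} (h : D.Win i j t ℓ c N) (h' : D.Win i j t ℓ c N') :
    run D.S 0 (j + ℓ) N ((fun q => D.eta (j + ℓ) (run D.S 0 (j + ℓ) N q))^[R] D.x₀) =
      run D.S 0 (j + ℓ) N' ((fun q => D.eta (j + ℓ) (run D.S 0 (j + ℓ) N' q))^[R] D.x₀) := by
  obtain ⟨z, hz, hz1, hz2⟩ := power_val hb hR h
  obtain ⟨z', hz', hz1', hz2'⟩ := power_val hb hR h'
  have : z = z' := BB_inj hb h hz hz' (hz1.trans hz1'.symm)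
  rw [hz2, hz2', this]

end LimAut

end Pool.Agent.Work.MP_0f91f8_co.Aut
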