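import Pool.Agent.Work.MP_0f91f8_co.Aut.Int
import Pool.Agent.Work.MP_0f91f8_co.BohrRot

/-!
The core of the argument with closeness requirements that depend on the base point.
-/

open Filter Topology

namespace Pool.Agent.Work.MP_0f91f8_co.Aut

open Pool.Agent.Work.MP_0f91f8_co.Bohr

variable {K : Type*} [CommGroup K] [TopologicalSpace K] [IsTopologicalGroup K] [CompactSpace K]

lemma exists_block' {b : ℕ} (hb : 0 < b) {f : ℕ → K}
    (hf : ∀ m n : ℕ, 0 < m → 0 < n → f (m * n) = f m * f n)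
    {Q : Set ℕ} (hQ : ∀ q ∈ Q, q.Prime) (hbQ : ∀ p : ℕ, p.Prime → p ∣ b → p ∈ Q)
    (hs : Summable (wt Q)) {r : ℕ} (C : ℚ → Fin r) (κ : ℚ → ℕ)
    (q₀ : ℚ) (hq₀ : 0 < q₀) (hbq₀ : BI b q₀)
    (V : Set K) (hV : V ∈ 𝓝 (1 : K)) (m : ℕ) (Λ : Finset ℚ) :
    ∃ p : ℚ × ℚ, 0 < p.1 ∧ BI b p.1 ∧ (gq f q₀)⁻¹ * gq f p.1 ∈ V ∧ C p.1 = C (p.1 * p.2) ∧
      0 < p.2 ∧ BI b p.2 ∧ gq f p.2 ∈ V ∧
      (∀ l ∈ Λ, gq f (1 + l * p.2) ∈ V ∧ Cl b Q (max m (κ p.1 + 2)) (1 + l * p.2)) ∧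
      (∀ l ∈ Λ, Cl b Q (max m (κ p.1 + 2)) (1 + (l * p.2) ^ 2)) := by
  classical
  obtain ⟨W, hW0, hWn, hWm⟩ := exists_nhds_seq V hV
  have hW1 : ∀ k, (1 : K) ∈ W k := fun k => mem_of_mem_nhds (hWn k)
  have hmono : ∀ k, W k ⊆ V := fun k => by
    have := seq_mono hW1 hWm (Nat.zero_le k)
    rwa [hW0] at this
  have hex : ∀ (k : ℕ) (s : Finset ℚ × ℚ × ℕ), ∃ τ : ℚ, 0 < τ ∧ BI b τ ∧
      gq f τ ∈ W (k + 1) ∧
      (∀ l ∈ s.1, gq f (1 + l * τ) ∈ W (k + 1) ∧ Cl b Q s.2.2 (1 + l * τ)) ∧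
      (∀ l ∈ s.1, Cl b Q s.2.2 (1 + (l * τ) ^ 2)) :=
    fun k s => exists_tau' hb hf hQ hbQ hs (W (k + 1)) (hWn _) s.2.2 s.1
  choose nxt hnxt using hex
  obtain ⟨st, hst0, hst⟩ : ∃ st : ℕ → Finset ℚ × ℚ × ℕ, st 0 = (Λ, q₀, max m (κ q₀ + 2)) ∧
      ∀ k, st (k + 1) = ((st k).1 ∪ (st k).1.image (fun l => l * nxt k (st k)),
        (st k).2.1 * nxt k (st k),
        max (st k).2.2 (κ ((st k).2.1 * nxt k (st k)) + 2)) :=
    ⟨fun k => Nat.rec (Λ, q₀, max m (κ q₀ + 2)) (fun k s =>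
      (s.1 ∪ s.1.image (fun l => l * nxt k s), s.2.1 * nxt k s,
        max s.2.2 (κ (s.2.1 * nxt k s) + 2))) k, rfl, fun _ => rfl⟩
  obtain ⟨τ, hτ⟩ : ∃ τ : ℕ → ℚ, ∀ k, τ k = nxt k (st k) := ⟨fun k => nxt k (st k), fun _ => rfl⟩
  have hS : ∀ k, (st (k + 1)).1 = (st k).1 ∪ (st k).1.image (fun l => l * τ k) := by
    intro k; rw [hst, hτ]
  have hP : ∀ k, (st (k + 1)).2.1 = (st k).2.1 * τ k := by
    intro k; rw [hst, hτ]
  have hM : ∀ k, (st (k + 1)).2.2 = max (st k).2.2 (κ ((st (k + 1)).2.1) + 2) := by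
    intro k; rw [hst]
  have hτpos : ∀ k, 0 < τ k := fun k => by rw [hτ]; exact (hnxt k (st k)).1
  have hτb : ∀ k, BI b (τ k) := fun k => by rw [hτ]; exact (hnxt k (st k)).2.1
  have hτmem : ∀ k, gq f (τ k) ∈ W (k + 1) := fun k => by rw [hτ]; exact (hnxt k (st k)).2.2.1
  have hτnear : ∀ k, ∀ l ∈ (st k).1, gq f (1 + l * τ k) ∈ W (k + 1) ∧
      Cl b Q (st k).2.2 (1 + l * τ k) := fun k => by rw [hτ]; exact (hnxt k (st k)).2.2.2.1
  have hτnorm : ∀ k, ∀ l ∈ (st k).1, Cl b Q (st k).2.2 (1 + (l * τ k) ^ 2) := fun k => by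
    rw [hτ]; exact (hnxt k (st k)).2.2.2.2
  have hstmono : ∀ k, Λ ⊆ (st k).1 := by
    intro k
    induction k with
    | zero => rw [hst0]
    | succ k ih => rw [hS]; exact ih.trans Finset.subset_union_left
  have hchain : ∀ i k, ∀ l ∈ Λ, l * ∏ t ∈ Finset.range k, τ (i + t) ∈ (st (i + k)).1 := by
    intro i k
    induction k with
    | zero => intro l hl; simpa using hstmono i hl
    | succ k ih =>
      intro l hl
      rw [Finset.prod_range_succ, ← mul_assoc]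
      have h1 := hS (i + k)
      have h2 : i + (k + 1) = i + k + 1 := by ring
      rw [h2, h1]
      exact Finset.mem_union_right _ (Finset.mem_image_of_mem _ (ih l hl))
  have hMmono : ∀ i k, (st i).2.2 ≤ (st (i + k)).2.2 := by
    intro i k
    induction k with
    | zero => exact le_rfl
    | succ k ih =>
      have h2 : i + (k + 1) = i + k + 1 := by ring
      rw [h2, hM]
      exact ih.trans (le_max_left _ _)
  -- base points
  obtain ⟨p, hp⟩ : ∃ p : ℕ → ℚ, ∀ k, p k = (st k).2.1 := ⟨_, fun _ => rfl⟩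
  have hpprod : ∀ k, p k = q₀ * ∏ t ∈ Finset.range k, τ t := by
    intro k
    induction k with
    | zero => rw [hp, hst0]; simp
    | succ k ih => rw [hp, hP, ← hp, ih, Finset.prod_range_succ, mul_assoc]
  have hppos : ∀ k, 0 < p k := fun k => by
    rw [hpprod]; exact mul_pos hq₀ (Finset.prod_pos fun t _ => hτpos t)
  have hpb : ∀ k, BI b (p k) := fun k => by
    rw [hpprod]; exact hbq₀.mul (BI.prod _ _ fun t _ => hτb t)
  have hMp : ∀ k, max m (κ (p k) + 2) ≤ (st k).2.2 := by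
    intro k
    have h0 : m ≤ (st k).2.2 := by
      have h1 := hMmono 0 k
      rw [zero_add] at h1
      refine le_trans ?_ h1
      rw [hst0]
      exact le_max_left _ _
    refine max_le h0 ?_
    cases k with
    | zero => rw [hp, hst0]; exact le_max_right _ _
    | succ k => rw [hp, hM]; exact le_max_right _ _
  obtain ⟨i, j, hij, hCij⟩ : ∃ i j : ℕ, i < j ∧ C (p i) = C (p j) := by
    have hcard : Fintype.card (Fin r) < Fintype.card (Fin (r + 1)) := by simp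
    obtain ⟨i, j, hne, h⟩ := Fintype.exists_ne_map_eq_of_card_lt
      (fun i : Fin (r + 1) => C (p i)) hcard
    rcases lt_or_gt_of_ne hne with h' | h'
    · exact ⟨i, j, h', h⟩
    · exact ⟨j, i, h', h.symm⟩
  obtain ⟨k, rfl⟩ : ∃ k, j = i + (k + 1) := ⟨j - i - 1, by omega⟩
  have hprod : p (i + (k + 1)) = p i * ∏ t ∈ Finset.range (k + 1), τ (i + t) := by
    rw [hpprod, hpprod, Finset.prod_range_add, mul_assoc]
  have hMik : max m (κ (p i) + 2) ≤ (st (i + k)).2.2 := (hMp i).trans (hMmono i k)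
  refine ⟨(p i, ∏ t ∈ Finset.range (k + 1), τ (i + t)), hppos i, hpb i, ?_, ?_,
    Finset.prod_pos fun t _ => hτpos _, ?_, ?_, ?_, ?_⟩
  · simp only
    rw [hpprod, gq_mul hf hq₀ (Finset.prod_pos fun t _ => hτpos t), inv_mul_cancel_left,
      gq_prod hf _ _ (fun t _ => hτpos t)]
    have := mem_prod_range hW1 hWm i 0 (fun t => gq f (τ t)) (fun t _ => by
      have := hτmem t
      simpa using this)
    rwa [hW0] at this
  · simp only
    rw [← hprod]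
    exact hCij
  · exact BI.prod (Finset.range (k + 1)) (fun t => τ (i + t)) (fun t _ => hτb (i + t))
  · simp only
    rw [gq_prod hf _ _ (fun t _ => hτpos _)]
    apply hmono i
    apply mem_prod_range hW1 hWm (k + 1) i
    intro t _
    exact hτmem (i + t)
  · intro l hl
    simp only
    rw [Finset.prod_range_succ, ← mul_assoc]
    have h1 := hτnear (i + k) _ (hchain i k l hl)
    exact ⟨hmono _ h1.1, h1.2.mono hb hMik⟩
  · intro l hl
    simp only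
    rw [Finset.prod_range_succ, ← mul_assoc]
    exact (hτnorm (i + k) _ (hchain i k l hl)).mono hb hMik

theorem core' {b : ℕ} (hb : 0 < b) {f : ℕ → K}
    (hf : ∀ m n : ℕ, 0 < m → 0 < n → f (m * n) = f m * f n)
    {Q : Set ℕ} (hQ : ∀ q ∈ Q, q.Prime) (hbQ : ∀ p : ℕ, p.Prime → p ∣ b → p ∈ Q)
    (hs : Summable (wt Q)) {r : ℕ} (C : ℚ → Fin r)
    (q₀ : ℚ) (hq₀ : 0 < q₀) (hbq₀ : BI b q₀) (U : Set K) (hU : U ∈ 𝓝 (gq f q₀))
    (hC : ∀ q : ℚ, 0 < q → BI b q → gq f q ∈ U → ∃ m : ℕ, ∀ u : ℚ, Cl b Q m u →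
      gq f (q * u) ∈ U → C q = C (q * u)) :
    ∃ X Y Z : ℚ, 0 < X ∧ 0 < Y ∧ 0 < Z ∧ BI b X ∧ BI b Y ∧ BI b Z ∧
      X ^ 2 + Y ^ 2 = Z ^ 2 ∧ C X = C Y ∧ C Y = C Z ∧
      gq f X ∈ U ∧ gq f Y ∈ U ∧ gq f Z ∈ U := by
  classical
  obtain ⟨κ, hκ⟩ : ∃ κ : ℚ → ℕ, ∀ q : ℚ, 0 < q → BI b q → gq f q ∈ U → ∀ u : ℚ,
      Cl b Q (κ q) u → gq f (q * u) ∈ U → C q = C (q * u) := by
    refine ⟨fun q => if h : 0 < q ∧ BI b q ∧ gq f q ∈ U then (hC q h.1 h.2.1 h.2.2).choose else 0,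
      ?_⟩
    intro q h1 h2 h3 u hu
    simp only at hu
    rw [dif_pos ⟨h1, h2, h3⟩] at hu
    exact (hC q h1 h2 h3).choose_spec u hu
  -- neighbourhoods
  have hU1 : {v : K | gq f q₀ * v ∈ U} ∈ 𝓝 (1 : K) := by
    have hc : Continuous (fun v : K => gq f q₀ * v) := by fun_prop
    have ht : Tendsto (fun v : K => gq f q₀ * v) (𝓝 1) (𝓝 (gq f q₀)) := by
      have := hc.tendsto 1
      simpa using this
    exact ht hU
  obtain ⟨V, hV, hV4⟩ := exists_nhds_one_split4 hU1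
  have hV1 : (1 : K) ∈ V := mem_of_mem_nhds hV
  obtain ⟨W, hW0, hWn, hWm⟩ := exists_nhds_seq V hV
  have hW1 : ∀ k, (1 : K) ∈ W k := fun k => mem_of_mem_nhds (hWn k)
  have hmono : ∀ k, W k ⊆ V := fun k => by
    have := seq_mono hW1 hWm (Nat.zero_le k)
    rwa [hW0] at this
  -- the sequence of blocks
  have hex : ∀ (k : ℕ) (s : Finset (ℚ × ℚ) × ℕ), ∃ p : ℚ × ℚ, 0 < p.1 ∧ BI b p.1 ∧
      (gq f q₀)⁻¹ * gq f p.1 ∈ W (k + 1) ∧ C p.1 = C (p.1 * p.2) ∧
      0 < p.2 ∧ BI b p.2 ∧ gq f p.2 ∈ W (k + 1) ∧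
      (∀ l ∈ lamS s.1, gq f (1 + l * p.2) ∈ W (k + 1) ∧
        Cl b Q (max s.2 (κ p.1 + 2)) (1 + l * p.2)) ∧
      (∀ l ∈ lamS s.1, Cl b Q (max s.2 (κ p.1 + 2)) (1 + (l * p.2) ^ 2)) :=
    fun k s => exists_block' hb hf hQ hbQ hs C κ q₀ hq₀ hbq₀ (W (k + 1)) (hWn _) s.2 (lamS s.1)
  choose nxt hnxt using hex
  obtain ⟨st, hst0, hst'⟩ : ∃ st : ℕ → Finset (ℚ × ℚ) × ℕ, st 0 = ({(1, 0)}, 0) ∧
      ∀ k, st (k + 1) = (insert (1, 0) ((st k).1.image (rot (nxt k (st k)).2)),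
        max ((st k).2 + 1) (max (κ (nxt k (st k)).1 + 3)
          (κ ((nxt k (st k)).1 * (nxt k (st k)).2) + 3))) :=
    ⟨fun k => Nat.rec ({(1, 0)}, 0) (fun k s => (insert (1, 0) (s.1.image (rot (nxt k s).2)),
      max (s.2 + 1) (max (κ (nxt k s).1 + 3) (κ ((nxt k s).1 * (nxt k s).2) + 3)))) k,
      rfl, fun _ => rfl⟩
  obtain ⟨bb, hbb⟩ : ∃ bb : ℕ → ℚ, ∀ k, bb k = (nxt k (st k)).1 := ⟨_, fun _ => rfl⟩
  obtain ⟨τ, hτ⟩ : ∃ τ : ℕ → ℚ, ∀ k, τ k = (nxt k (st k)).2 := ⟨_, fun _ => rfl⟩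
  have hst : ∀ k, (st (k + 1)).1 = insert (1, 0) ((st k).1.image (rot (τ k))) := by
    intro k; rw [hst', hτ]
  have hM : ∀ k, (st (k + 1)).2 = max ((st k).2 + 1) (max (κ (bb k) + 3)
      (κ (bb k * τ k) + 3)) := by
    intro k; rw [hst', hτ, hbb]
  have hst1 : ∀ k, ((1, 0) : ℚ × ℚ) ∈ (st k).1 := by
    intro k
    cases k with
    | zero => rw [hst0]; exact Finset.mem_singleton_self _
    | succ k => rw [hst]; exact Finset.mem_insert_self _ _
  have hbpos : ∀ k, 0 < bb k := fun k => by rw [hbb]; exact (hnxt k (st k)).1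
  have hbint : ∀ k, BI b (bb k) := fun k => by rw [hbb]; exact (hnxt k (st k)).2.1
  have hbmem : ∀ k, (gq f q₀)⁻¹ * gq f (bb k) ∈ W (k + 1) := fun k => by
    rw [hbb]; exact (hnxt k (st k)).2.2.1
  have hbC : ∀ k, C (bb k) = C (bb k * τ k) := fun k => by
    rw [hbb, hτ]; exact (hnxt k (st k)).2.2.2.1
  have hτpos : ∀ k, 0 < τ k := fun k => by rw [hτ]; exact (hnxt k (st k)).2.2.2.2.1
  have hτint : ∀ k, BI b (τ k) := fun k => by rw [hτ]; exact (hnxt k (st k)).2.2.2.2.2.1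
  have hτmem : ∀ k, gq f (τ k) ∈ W (k + 1) := fun k => by
    rw [hτ]; exact (hnxt k (st k)).2.2.2.2.2.2.1
  have hτnear : ∀ k, ∀ l ∈ lamS (st k).1, gq f (1 + l * τ k) ∈ W (k + 1) ∧
      Cl b Q (max (st k).2 (κ (bb k) + 2)) (1 + l * τ k) := fun k => by
    rw [hτ, hbb]; exact (hnxt k (st k)).2.2.2.2.2.2.2.1
  have hτnorm : ∀ k, Cl b Q (max (st k).2 (κ (bb k) + 2)) (1 + (1 / 2 * τ k) ^ 2) := fun k => by
    rw [hτ, hbb]
    exact (hnxt k (st k)).2.2.2.2.2.2.2.2 _ (Finset.mem_insert_self _ _)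
  have hMle : ∀ i s, max (κ (bb i) + 3) (κ (bb i * τ i) + 3) + s ≤ (st (i + 1 + s)).2 := by
    intro i s
    induction s with
    | zero =>
      rw [add_zero, add_zero, hM]
      exact le_max_right _ _
    | succ s ih =>
      have h1 : i + 1 + (s + 1) = i + 1 + s + 1 := by ring
      rw [h1, hM]
      refine le_trans ?_ (le_max_left _ _)
      omega
  -- norms
  obtain ⟨w, hw⟩ : ∃ w : ℕ → ℚ, ∀ k, w k = 1 + (1 / 2 * τ k) ^ 2 := ⟨_, fun _ => rfl⟩
  have hwpos : ∀ k, 0 < w k := fun k => by rw [hw]; positivity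
  obtain ⟨R, hR⟩ := exists_rec V hV
  obtain ⟨i, j, hij, -, hP⟩ := hR (fun n => ∏ t ∈ Finset.range n, gq f (w t))
  obtain ⟨n, rfl⟩ : ∃ n, j = i + (n + 1) := ⟨j - i - 1, by omega⟩
  have hnormmem : gq f (∏ t ∈ Finset.range (n + 1), w (i + t)) ∈ V := by
    rw [gq_prod hf _ _ (fun t _ => hwpos _)]
    have h1 : (∏ t ∈ Finset.range i, gq f (w t))⁻¹ * ∏ t ∈ Finset.range (i + (n + 1)), gq f (w t) =
        ∏ t ∈ Finset.range (n + 1), gq f (w (i + t)) := by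
      rw [Finset.prod_range_add, inv_mul_cancel_left]
    rw [← h1]
    exact hP
  -- the chain of states starting at time i
  obtain ⟨z, hz0, hzs⟩ : ∃ z : ℕ → ℚ × ℚ, z 0 = (1, 0) ∧
      ∀ k, z (k + 1) = rot (τ (i + k)) (z k) :=
    ⟨fun k => Nat.rec (1, 0) (fun k y => rot (τ (i + k)) y) k, rfl, fun _ => rfl⟩
  have hzmem : ∀ k, z k ∈ (st (i + k)).1 := by
    intro k
    induction k with
    | zero => rw [hz0]; exact hst1 _
    | succ k ih =>
      rw [hzs]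
      have h0 : i + (k + 1) = i + k + 1 := by ring
      rw [h0, hst]
      exact Finset.mem_insert_of_mem (Finset.mem_image_of_mem _ ih)
  have hlam : ∀ k, ∀ l ∈ lam (z k), gq f (1 + l * τ (i + k)) ∈ W (i + k + 1) ∧
      Cl b Q (max (st (i + k)).2 (κ (bb (i + k)) + 2)) (1 + l * τ (i + k)) := by
    intro k l hl
    apply hτnear
    exact Finset.mem_insert_of_mem (Finset.mem_biUnion.2 ⟨z k, hzmem k, hl⟩)
  -- the closeness available at the various scales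
  have hown : ∀ k, κ (bb i) + 1 + k + 1 ≤ max (st (i + k)).2 (κ (bb (i + k)) + 2) := by
    intro k
    cases k with
    | zero => exact le_trans (by simp) (le_max_right _ _)
    | succ k =>
      refine le_trans ?_ (le_max_left _ _)
      have h1 := hMle i k
      have h2 : i + (k + 1) = i + 1 + k := by ring
      rw [h2]
      have h3 := le_max_left (κ (bb i) + 3) (κ (bb i * τ i) + 3)
      omega
  have hoth : ∀ k, κ (bb i * τ i) + 1 + k + 1 ≤
      max (st (i + (k + 1))).2 (κ (bb (i + (k + 1))) + 2) := by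
    intro k
    refine le_trans ?_ (le_max_left _ _)
    have h1 := hMle i k
    have h2 : i + (k + 1) = i + 1 + k := by ring
    rw [h2]
    have h3 := le_max_right (κ (bb i) + 3) (κ (bb i * τ i) + 3)
    omega
  obtain ⟨uM, huM⟩ : ∃ uM : ℕ → ℚ, ∀ k, uM k = 1 + (-(z k).2 / (2 * (z k).1)) * τ (i + k) :=
    ⟨_, fun _ => rfl⟩
  obtain ⟨uN, huN⟩ : ∃ uN : ℕ → ℚ, ∀ k, uN k = 1 + ((z k).1 / (2 * (z k).2)) * τ (i + k) :=
    ⟨_, fun _ => rfl⟩
  obtain ⟨uD, huD⟩ : ∃ uD : ℕ → ℚ, ∀ k, uD k =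
    1 + (-((z k).1 + (z k).2) / (2 * ((z k).1 - (z k).2))) * τ (i + k) := ⟨_, fun _ => rfl⟩
  obtain ⟨uS, huS⟩ : ∃ uS : ℕ → ℚ, ∀ k, uS k =
    1 + (((z k).1 - (z k).2) / (2 * ((z k).1 + (z k).2))) * τ (i + k) := ⟨_, fun _ => rfl⟩
  have hMk : ∀ k, gq f (uM k) ∈ W (i + k + 1) ∧
      Cl b Q (max (st (i + k)).2 (κ (bb (i + k)) + 2)) (uM k) := fun k => by
    rw [huM]; exact hlam k _ (by simp [lam])
  have hNk : ∀ k, gq f (uN k) ∈ W (i + k + 1) ∧
      Cl b Q (max (st (i + k)).2 (κ (bb (i + k)) + 2)) (uN k) := fun k => by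
    rw [huN]; exact hlam k _ (by simp [lam])
  have hDk : ∀ k, gq f (uD k) ∈ W (i + k + 1) ∧
      Cl b Q (max (st (i + k)).2 (κ (bb (i + k)) + 2)) (uD k) := fun k => by
    rw [huD]; exact hlam k _ (by simp [lam])
  have hSk : ∀ k, gq f (uS k) ∈ W (i + k + 1) ∧
      Cl b Q (max (st (i + k)).2 (κ (bb (i + k)) + 2)) (uS k) := fun k => by
    rw [huS]; exact hlam k _ (by simp [lam])
  have hprodM : ∀ k, (z k).1 = ∏ t ∈ Finset.range k, uM t := by
    intro k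
    induction k with
    | zero => simp [hz0]
    | succ k ih =>
      rw [Finset.prod_range_succ, ← ih, hzs]
      have hne : (z k).1 ≠ 0 := by
        rw [ih]; exact (Finset.prod_pos fun t _ => (hMk t).2.pos).ne'
      rw [huM]
      simp only [rot]
      field_simp
      ring
  have hprodM' : ∀ k, (z (k + 1)).1 = ∏ t ∈ Finset.range k, uM (t + 1) := by
    intro k
    rw [hprodM, Finset.prod_range_succ']
    have : uM 0 = 1 := by rw [huM, hz0]; simp
    rw [this, mul_one]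
  have hprodD : ∀ k, (z k).1 - (z k).2 = ∏ t ∈ Finset.range k, uD t := by
    intro k
    induction k with
    | zero => simp [hz0]
    | succ k ih =>
      rw [Finset.prod_range_succ, ← ih, hzs]
      have hne : (z k).1 - (z k).2 ≠ 0 := by
        rw [ih]; exact (Finset.prod_pos fun t _ => (hDk t).2.pos).ne'
      rw [huD]
      simp only [rot]
      field_simp
      ring
  have hprodS : ∀ k, (z k).1 + (z k).2 = ∏ t ∈ Finset.range k, uS t := by
    intro k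
    induction k with
    | zero => simp [hz0]
    | succ k ih =>
      rw [Finset.prod_range_succ, ← ih, hzs]
      have hne : (z k).1 + (z k).2 ≠ 0 := by
        rw [ih]; exact (Finset.prod_pos fun t _ => (hSk t).2.pos).ne'
      rw [huS]
      simp only [rot]
      field_simp
      ring
  have hprodN : ∀ k, 2 * (z (k + 1)).2 = τ i * ∏ t ∈ Finset.range k, uN (t + 1) := by
    intro k
    induction k with
    | zero =>
      simp only [hzs, hz0, rot]
      simp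
      ring
    | succ k ih =>
      rw [Finset.prod_range_succ, ← mul_assoc, ← ih, hzs (k + 1)]
      have hne : (z (k + 1)).2 ≠ 0 := by
        intro h0
        rw [h0] at ih
        have : 0 < τ i * ∏ t ∈ Finset.range k, uN (t + 1) :=
          mul_pos (hτpos i) (Finset.prod_pos fun t _ => (hNk (t + 1)).2.pos)
        rw [← ih] at this
        simp at this
      rw [huN]
      simp only [rot]
      field_simp
  have hprodZ : ∀ k, (z k).1 ^ 2 + (z k).2 ^ 2 = ∏ t ∈ Finset.range k, w (i + t) := by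
    intro k
    induction k with
    | zero => simp [hz0]
    | succ k ih =>
      rw [Finset.prod_range_succ, ← ih, hzs, hw]
      simp only [rot]
      ring
  -- the values of `f`
  have memprod : ∀ (u : ℕ → ℚ) (n : ℕ), (∀ k, 0 < u k) → (∀ k, gq f (u k) ∈ W (i + k + 1)) →
      gq f (∏ t ∈ Finset.range n, u t) ∈ V := by
    intro u n hu hm
    rw [gq_prod hf _ _ (fun t _ => hu t)]
    apply hmono i
    exact mem_prod_range hW1 hWm n i (fun t => gq f (u t)) (fun t _ => hm t)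
  have memprod' : ∀ (u : ℕ → ℚ) (n : ℕ), (∀ k, 0 < u k) → (∀ k, gq f (u k) ∈ W (i + k + 1)) →
      gq f (∏ t ∈ Finset.range n, u (t + 1)) ∈ V := by
    intro u n hu hm
    rw [gq_prod hf _ _ (fun t _ => hu _)]
    apply hmono (i + 1)
    refine mem_prod_range hW1 hWm n (i + 1) (fun t => gq f (u (t + 1))) (fun t _ => ?_)
    have h1 := hm (t + 1)
    have he : i + 1 + t + 1 = i + (t + 1) + 1 := by ring
    rw [he]
    exact h1
  obtain ⟨M, hMdef⟩ : ∃ M : ℚ, M = (z (n + 1)).1 := ⟨_, rfl⟩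
  obtain ⟨N, hNdef⟩ : ∃ N : ℚ, N = (z (n + 1)).2 := ⟨_, rfl⟩
  obtain ⟨ν, hν⟩ : ∃ ν : ℚ, ν = ∏ t ∈ Finset.range n, uN (t + 1) := ⟨_, rfl⟩
  have memM : gq f M ∈ V := by
    rw [hMdef, hprodM]; exact memprod uM _ (fun k => (hMk k).2.pos) (fun k => (hMk k).1)
  have memν : gq f ν ∈ V := by
    rw [hν]; exact memprod' uN _ (fun k => (hNk k).2.pos) (fun k => (hNk k).1)
  have memD : gq f (M - N) ∈ V := by
    rw [hMdef, hNdef, hprodD]; exact memprod uD _ (fun k => (hDk k).2.pos) (fun k => (hDk k).1)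
  have memS : gq f (M + N) ∈ V := by
    rw [hMdef, hNdef, hprodS]; exact memprod uS _ (fun k => (hSk k).2.pos) (fun k => (hSk k).1)
  have memZ : gq f (M ^ 2 + N ^ 2) ∈ V := by
    rw [hMdef, hNdef, hprodZ]; exact hnormmem
  -- closeness
  have clD : Cl b Q (κ (bb i) + 1) (M - N) := by
    rw [hMdef, hNdef, hprodD]
    exact Cl.prod hb hQ hbQ (n + 1) _ uD (fun t _ => (hDk t).2.mono hb (hown t))
  have clS : Cl b Q (κ (bb i) + 1) (M + N) := by
    rw [hMdef, hNdef, hprodS]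
    exact Cl.prod hb hQ hbQ (n + 1) _ uS (fun t _ => (hSk t).2.mono hb (hown t))
  have clZ : Cl b Q (κ (bb i) + 1) (M ^ 2 + N ^ 2) := by
    rw [hMdef, hNdef, hprodZ]
    refine Cl.prod hb hQ hbQ (n + 1) _ (fun t => w (i + t)) (fun t _ => ?_)
    simp only [hw]
    exact (hτnorm (i + t)).mono hb (hown t)
  have clM : Cl b Q (κ (bb i * τ i) + 1) M := by
    rw [hMdef, hprodM']
    exact Cl.prod hb hQ hbQ n _ (fun t => uM (t + 1))
      (fun t _ => (hMk (t + 1)).2.mono hb (hoth t))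
  have clν : Cl b Q (κ (bb i * τ i) + 1) ν := by
    rw [hν]
    exact Cl.prod hb hQ hbQ n _ (fun t => uN (t + 1))
      (fun t _ => (hNk (t + 1)).2.mono hb (hoth t))
  have clX : Cl b Q (κ (bb i)) ((M - N) * (M + N)) := Cl.mul hb hQ hbQ clD clS
  have clY : Cl b Q (κ (bb i * τ i)) (M * ν) := Cl.mul hb hQ hbQ clM clν
  have clZ' : Cl b Q (κ (bb i)) (M ^ 2 + N ^ 2) := clZ.mono hb (Nat.le_succ _)
  have hzy : 2 * N = τ i * ν := by rw [hNdef, hprodN, hν]
  have hz2pos : 0 < N := by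
    have : 0 < τ i * ν := mul_pos (hτpos i) clν.pos
    linarith
  -- membership in U
  have hmemU : ∀ v, v ∈ {v : K | gq f q₀ * v ∈ U} → ∀ x : ℚ,
      gq f x = gq f q₀ * v → gq f x ∈ U := by
    intro v hv x hx
    rw [hx]
    exact hv
  obtain ⟨vb, hvb⟩ : ∃ vb : K, vb = (gq f q₀)⁻¹ * gq f (bb i) := ⟨_, rfl⟩
  have hvbV : vb ∈ V := by rw [hvb]; exact hmono _ (hbmem i)
  have hbval : gq f (bb i) = gq f q₀ * vb := by rw [hvb, mul_inv_cancel_left]
  have hτV : gq f (τ i) ∈ V := hmono _ (hτmem i)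
  have hbU : gq f (bb i) ∈ U :=
    hmemU _ (hV4 hvbV hV1 hV1 hV1) _ (by rw [hbval]; simp)
  have hXU : gq f (bb i * ((M - N) * (M + N))) ∈ U :=
    hmemU _ (hV4 hvbV memD memS hV1) _ (by
      rw [gq_mul hf (hbpos i) (mul_pos clD.pos clS.pos), gq_mul hf clD.pos clS.pos, hbval]
      simp [mul_assoc])
  have hZU : gq f (bb i * (M ^ 2 + N ^ 2)) ∈ U :=
    hmemU _ (hV4 hvbV memZ hV1 hV1) _ (by
      rw [gq_mul hf (hbpos i) clZ.pos, hbval]
      simp [mul_assoc])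
  have hbτpos : 0 < bb i * τ i := mul_pos (hbpos i) (hτpos i)
  have hbτint : BI b (bb i * τ i) := (hbint i).mul (hτint i)
  have hbτU : gq f (bb i * τ i) ∈ U :=
    hmemU _ (hV4 hvbV hτV hV1 hV1) _ (by
      rw [gq_mul hf (hbpos i) (hτpos i), hbval]
      simp [mul_assoc])
  have hYU : gq f (bb i * τ i * (M * ν)) ∈ U :=
    hmemU _ (hV4 hvbV hτV memM memν) _ (by
      rw [gq_mul hf hbτpos (mul_pos clM.pos clν.pos), gq_mul hf (hbpos i) (hτpos i),
        gq_mul hf clM.pos clν.pos, hbval]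
      simp [mul_assoc])
  have hCX := hκ (bb i) (hbpos i) (hbint i) hbU _ clX hXU
  have hCZ := hκ (bb i) (hbpos i) (hbint i) hbU _ clZ' hZU
  have hCY := hκ (bb i * τ i) hbτpos hbτint hbτU _ clY hYU
  have hbCi := hbC i
  refine ⟨bb i * ((M - N) * (M + N)), bb i * τ i * (M * ν), bb i * (M ^ 2 + N ^ 2),
    mul_pos (hbpos i) clX.pos, mul_pos hbτpos clY.pos, mul_pos (hbpos i) clZ'.pos,
    (hbint i).mul (BI.of_QU hbQ clX.qu), hbτint.mul (BI.of_QU hbQ clY.qu),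
    (hbint i).mul (BI.of_QU hbQ clZ'.qu), ?_, ?_, ?_, hXU, hYU, hZU⟩
  · have h1 : bb i * τ i * (M * ν) = bb i * (2 * M * N) := by
      have : bb i * τ i * (M * ν) = bb i * M * (τ i * ν) := by ring
      rw [this, ← hzy]
      ring
    rw [h1]
    ring
  · rw [← hCX, ← hCY, hbCi]
  · rw [← hCY, ← hCZ, hbCi]

end Pool.Agent.Work.MP_0f91f8_co.Aut
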