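import Pool.Agent.Work.MP_0f91f8_co.BohrCore

/-!
`b`-integral rationals, closeness to one in the real and in the `b`-adic sense, and
infinitesimals.
-/

open Filter Topology

namespace Pool.Agent.Work.MP_0f91f8_co.Aut

open Pool.Agent.Work.MP_0f91f8_co.Bohr

/-- `b`-integral rationals -/
def BI (b : ℕ) (x : ℚ) : Prop := ∃ (n : ℤ) (B : ℕ), 0 < B ∧ B.Coprime b ∧ x = n / B

section BI

variable {b : ℕ}

lemma BI.int (n : ℤ) : BI b n := ⟨n, 1, one_pos, Nat.coprime_one_left b, by simp⟩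

lemma BI.nat (n : ℕ) : BI b n := ⟨n, 1, one_pos, Nat.coprime_one_left b, by simp⟩

lemma BI.one : BI b 1 := by simpa using BI.nat (b := b) 1

lemma BI.add {x y : ℚ} (hx : BI b x) (hy : BI b y) : BI b (x + y) := by
  obtain ⟨n, B, hB, hBb, rfl⟩ := hx
  obtain ⟨m, D, hD, hDb, rfl⟩ := hy
  refine ⟨n * D + m * B, B * D, Nat.mul_pos hB hD, Nat.Coprime.mul_left hBb hDb, ?_⟩
  have h1 : (B : ℚ) ≠ 0 := by exact_mod_cast hB.ne'
  have h2 : (D : ℚ) ≠ 0 := by exact_mod_cast hD.ne'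
  push_cast
  field_simp

lemma BI.mul {x y : ℚ} (hx : BI b x) (hy : BI b y) : BI b (x * y) := by
  obtain ⟨n, B, hB, hBb, rfl⟩ := hx
  obtain ⟨m, D, hD, hDb, rfl⟩ := hy
  refine ⟨n * m, B * D, Nat.mul_pos hB hD, Nat.Coprime.mul_left hBb hDb, ?_⟩
  have h1 : (B : ℚ) ≠ 0 := by exact_mod_cast hB.ne'
  have h2 : (D : ℚ) ≠ 0 := by exact_mod_cast hD.ne'
  push_cast
  field_simp

lemma BI.neg {x : ℚ} (hx : BI b x) : BI b (-x) := by
  have := (BI.int (b := b) (-1)).mul hx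
  simpa using this

lemma BI.sub {x y : ℚ} (hx : BI b x) (hy : BI b y) : BI b (x - y) := by
  rw [sub_eq_add_neg]
  exact hx.add hy.neg

lemma BI.prod {ι : Type*} (s : Finset ι) (u : ι → ℚ) (hu : ∀ i ∈ s, BI b (u i)) :
    BI b (∏ i ∈ s, u i) := by
  classical
  induction s using Finset.induction_on with
  | empty => simpa using BI.one
  | insert a s ha ih =>
    rw [Finset.prod_insert ha]
    exact (hu a (Finset.mem_insert_self _ _)).mul
      (ih fun i hi => hu i (Finset.mem_insert_of_mem hi))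

lemma BI.of_QU {Q : Set ℕ} (hbQ : ∀ p : ℕ, p.Prime → p ∣ b → p ∈ Q) {u : ℚ} (hu : QU Q u) :
    BI b u := by
  obtain ⟨A, B, hA, hB, hA', hB', rfl⟩ := hu
  refine ⟨A, B, hB, ?_, by simp⟩
  apply Nat.coprime_of_dvd
  intro p hp h1 h2
  exact hB' p (hbQ p hp h2) h1

end BI

/-- closeness to one -/
structure Cl (b : ℕ) (Q : Set ℕ) (m : ℕ) (u : ℚ) : Prop where
  pos : 0 < u
  qu : QU Q u
  close : |u - 1| * 4 ^ m < 1
  bint : BI b ((u - 1) / b ^ m)

section Cl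

variable {b : ℕ} {Q : Set ℕ}

lemma Cl.close' {m : ℕ} {u : ℚ} (h : Cl b Q m u) : |u - 1| < 1 / 4 ^ m := by
  rw [lt_div_iff₀ (by positivity)]
  exact h.close

variable (hb : 0 < b) (hQ : ∀ q ∈ Q, q.Prime) (hbQ : ∀ p : ℕ, p.Prime → p ∣ b → p ∈ Q)

include hQ in
lemma Cl.one (m : ℕ) : Cl b Q m 1 :=
  ⟨one_pos, QU.one hQ, by simp, by simpa using BI.int (b := b) 0⟩

include hb in
lemma Cl.mono {m m' : ℕ} (h : m ≤ m') {u : ℚ} (hu : Cl b Q m' u) : Cl b Q m u := by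
  obtain ⟨k, rfl⟩ := Nat.exists_eq_add_of_le h
  refine ⟨hu.pos, hu.qu, ?_, ?_⟩
  · refine lt_of_le_of_lt ?_ hu.close
    apply mul_le_mul_of_nonneg_left _ (abs_nonneg _)
    exact pow_le_pow_right₀ (by norm_num) h
  · have h1 := hu.bint.mul (BI.nat (b := b) (b ^ k))
    have h2 : (b : ℚ) ≠ 0 := by exact_mod_cast hb.ne'
    have h3 : (u - 1) / (b : ℚ) ^ m = (u - 1) / (b : ℚ) ^ (m + k) * ((b ^ k : ℕ) : ℚ) := by
      push_cast
      rw [pow_add]
      field_simp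
    rw [h3]
    exact h1

include hb hQ hbQ in
lemma Cl.mul {m : ℕ} {u v : ℚ} (hu : Cl b Q (m + 1) u) (hv : Cl b Q (m + 1) v) :
    Cl b Q m (u * v) := by
  have hu' := hu.mono hb (Nat.le_succ m)
  have hv' := hv.mono hb (Nat.le_succ m)
  refine ⟨mul_pos hu.pos hv.pos, QU.mul hQ hu.qu hv.qu, ?_, ?_⟩
  · have h1 := hu.close'
    have h2 := hv.close'
    have h3 : |v - 1| < 1 := by
      refine lt_of_lt_of_le h2 ?_
      rw [div_le_one (by positivity)]
      exact one_le_pow₀ (by norm_num)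
    have h4 := abs_lt.1 h3
    have h5 : |v| < 2 := by
      rw [abs_lt]; constructor <;> linarith [h4.1, h4.2]
    have h6 : u * v - 1 = (u - 1) * v + (v - 1) := by ring
    have h7 : (0 : ℚ) < 1 / 4 ^ (m + 1) := by positivity
    have h8 : |u * v - 1| < 1 / 4 ^ m := by
      calc |u * v - 1| = |(u - 1) * v + (v - 1)| := by rw [h6]
        _ ≤ |(u - 1) * v| + |v - 1| := abs_add_le _ _
        _ = |u - 1| * |v| + |v - 1| := by rw [abs_mul]
        _ < 1 / 4 ^ (m + 1) * 2 + 1 / 4 ^ (m + 1) := by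
          have h9 : |u - 1| * |v| ≤ 1 / 4 ^ (m + 1) * 2 :=
            mul_le_mul h1.le h5.le (abs_nonneg _) h7.le
          linarith
        _ = 3 / 4 * (1 / 4 ^ m) := by rw [pow_succ]; ring
        _ ≤ 1 / 4 ^ m := by
          have : (0 : ℚ) < 1 / 4 ^ m := by positivity
          linarith
    rw [lt_div_iff₀ (by positivity)] at h8
    exact h8
  · have h1 : (u * v - 1) / (b : ℚ) ^ m = (u - 1) / (b : ℚ) ^ m * v + (v - 1) / (b : ℚ) ^ m := by
      rw [div_mul_eq_mul_div, ← add_div]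
      congr 1
      ring
    rw [h1]
    exact (hu'.bint.mul (BI.of_QU hbQ hv.qu)).add hv'.bint

include hb hQ hbQ in
lemma Cl.prod (n : ℕ) : ∀ (a : ℕ) (u : ℕ → ℚ), (∀ t < n, Cl b Q (a + t + 1) (u t)) →
    Cl b Q a (∏ t ∈ Finset.range n, u t) := by
  induction n with
  | zero => intro a u _; simpa using Cl.one hQ a
  | succ n ih =>
    intro a u hu
    rw [Finset.prod_range_succ']
    refine Cl.mul hb hQ hbQ ?_ ?_
    · apply ih (a + 1) (fun t => u (t + 1))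
      intro t ht
      have := hu (t + 1) (by omega)
      have he : a + 1 + t + 1 = a + (t + 1) + 1 := by ring
      rw [he]
      exact this
    · exact hu 0 (by omega)

end Cl

variable {K : Type*} [CommGroup K] [TopologicalSpace K] [IsTopologicalGroup K] [CompactSpace K]

lemma exists_tau' {b : ℕ} (hb : 0 < b) {f : ℕ → K}
    (hf : ∀ m n : ℕ, 0 < m → 0 < n → f (m * n) = f m * f n)
    {Q : Set ℕ} (hQ : ∀ q ∈ Q, q.Prime) (hbQ : ∀ p : ℕ, p.Prime → p ∣ b → p ∈ Q)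
    (hs : Summable (wt Q)) (V : Set K) (hV : V ∈ 𝓝 (1 : K)) (m : ℕ) (Λ : Finset ℚ) :
    ∃ τ : ℚ, 0 < τ ∧ BI b τ ∧ gq f τ ∈ V ∧
      (∀ l ∈ Λ, gq f (1 + l * τ) ∈ V ∧ Cl b Q m (1 + l * τ)) ∧
      (∀ l ∈ Λ, Cl b Q m (1 + (l * τ) ^ 2)) := by
  classical
  have hb' : (b : ℚ) ≠ 0 := by exact_mod_cast hb.ne'
  obtain ⟨τ, h0, -, hV1, hN, hQU⟩ := exists_tau hf hQ hs V hV (1 / 4 ^ m) (by positivity)
    (insert (1 / (b : ℚ) ^ m) (Λ ∪ Λ.image (fun l => l / (b : ℚ) ^ m)))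
  have hb1 : ∀ l ∈ Λ, BI b (l * τ / (b : ℚ) ^ m) := by
    intro l hl
    have h1 := (hN (l / (b : ℚ) ^ m) (Finset.mem_insert_of_mem (Finset.mem_union_right _
      (Finset.mem_image_of_mem _ hl)))).qu
    have h2 := (BI.of_QU hbQ h1).sub BI.one
    have h3 : 1 + l / (b : ℚ) ^ m * τ - 1 = l * τ / (b : ℚ) ^ m := by ring
    rwa [h3] at h2
  have hbm : ∀ x : ℚ, BI b (x / (b : ℚ) ^ m) → BI b x := by
    intro x hx
    have h1 := hx.mul (BI.nat (b := b) (b ^ m))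
    have h2 : x / (b : ℚ) ^ m * ((b ^ m : ℕ) : ℚ) = x := by
      push_cast
      field_simp
    rwa [h2] at h1
  refine ⟨τ, h0, ?_, hV1, ?_, ?_⟩
  · have h1 := (hN (1 / (b : ℚ) ^ m) (Finset.mem_insert_self _ _)).qu
    have h2 := (BI.of_QU hbQ h1).sub BI.one
    have h3 : 1 + 1 / (b : ℚ) ^ m * τ - 1 = τ / (b : ℚ) ^ m := by ring
    rw [h3] at h2
    exact hbm _ h2
  · intro l hl
    have h1 := hN l (Finset.mem_insert_of_mem (Finset.mem_union_left _ hl))
    refine ⟨h1.mem, h1.pos, h1.qu, ?_, ?_⟩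
    · have := h1.close
      rwa [lt_div_iff₀ (by positivity)] at this
    · have h2 : 1 + l * τ - 1 = l * τ := by ring
      rw [h2]
      exact hb1 l hl
  · intro l hl
    have h1 := hN l (Finset.mem_insert_of_mem (Finset.mem_union_left _ hl))
    refine ⟨by positivity, hQU l (Finset.mem_insert_of_mem (Finset.mem_union_left _ hl)), ?_, ?_⟩
    · have h2 := h1.close
      have h3 : 1 + l * τ - 1 = l * τ := by ring
      rw [h3] at h2
      have h4 : 1 + (l * τ) ^ 2 - 1 = (l * τ) ^ 2 := by ring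
      rw [h4, abs_of_nonneg (sq_nonneg _), ← lt_div_iff₀ (by positivity), ← sq_abs]
      have h5 : (1 : ℚ) / 4 ^ m ≤ 1 := by
        rw [div_le_one (by positivity)]
        exact one_le_pow₀ (by norm_num)
      nlinarith [abs_nonneg (l * τ)]
    · have h4 : (1 + (l * τ) ^ 2 - 1) / (b : ℚ) ^ m = (l * τ / (b : ℚ) ^ m) * (l * τ) := by ring
      rw [h4]
      exact (hb1 l hl).mul (hbm _ (hb1 l hl))

end Pool.Agent.Work.MP_0f91f8_co.Aut
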