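import Pool.Agent.Work.MP_0f91f8_co.Automaton

/-!
The recurrent limit of a level-dependent automaton, at a place of minimal rank.
-/

open Filter

namespace Pool.Agent.Work.MP_0f91f8_co.Aut

open Pool.Agent.Work.MP_0f91f8_co

/-- functions of bounded width are computed by level-dependent automata -/
theorem bw_automaton {β : Type*} (b s : ℕ) [NeZero b] (c : ℕ → β)
    (hc : ∀ k : ℕ, {g : ℕ → β | ∃ j < b ^ k, g = fun n => c (b ^ k * n + j)}.encard ≤ s) :
    ∃ (S : ℕ → Fin b → Fin s → Fin s) (st : ℕ → Fin s) (out : ℕ → Fin s → β),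
      (∀ h, S h 0 (st h) = st (h + 1)) ∧
      ∀ h ℓ N, N < b ^ ℓ → out (h + ℓ) (run S h ℓ N (st h)) = c (b ^ h * N) := by
  classical
  have hb0 : 0 < b := Nat.pos_of_ne_zero (NeZero.ne b)
  have hne : Nonempty (ℕ → β) := ⟨c⟩
  -- numbering of the states
  have hι : ∀ k : ℕ, ∃ f : (ℕ → β) → Fin s,
      Set.InjOn f {g : ℕ → β | ∃ j < b ^ k, g = fun n => c (b ^ k * n + j)} := by
    intro k
    set G : Set (ℕ → β) := {g : ℕ → β | ∃ j < b ^ k, g = fun n => c (b ^ k * n + j)}
      with hG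
    have hGne : G.Nonempty := ⟨_, 0, by positivity, rfl⟩
    have hfin : G.Finite := Set.finite_of_encard_le_coe (hc k)
    have hcard : hfin.toFinset.card ≤ s := by
      have := hc k
      rw [← hG, hfin.encard_eq_coe_toFinset_card] at this
      exact_mod_cast this
    have hspos : 0 < s := by
      have : 0 < hfin.toFinset.card := by
        rw [Finset.card_pos]
        obtain ⟨g, hg⟩ := hGne
        exact ⟨g, by simpa using hg⟩
      omega
    have : NeZero s := ⟨by omega⟩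
    obtain ⟨e⟩ := Function.Embedding.nonempty_of_card_le
      (α := hfin.toFinset) (β := Fin s) (by simpa using hcard)
    refine ⟨fun g => if h : g ∈ hfin.toFinset then e ⟨g, h⟩ else 0, ?_⟩
    intro g hg g' hg' hgg
    have h1 : g ∈ hfin.toFinset := by simpa using hg
    have h2 : g' ∈ hfin.toFinset := by simpa using hg'
    simp only [h1, h2, dif_pos] at hgg
    have := e.injective hgg
    exact congrArg Subtype.val this
  choose ι hι using hι
  set G : ℕ → Set (ℕ → β) := fun k =>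
    {g : ℕ → β | ∃ j < b ^ k, g = fun n => c (b ^ k * n + j)} with hG
  -- a decoding
  let dec : ℕ → Fin s → (ℕ → β) := fun k => Function.invFunOn (ι k) (G k)
  have hdec : ∀ k, ∀ g ∈ G k, dec k (ι k g) = g := by
    intro k g hg
    exact (hι k).leftInvOn_invFunOn hg
  have hdecj : ∀ k j, j < b ^ k → dec k (ι k (fun n => c (b ^ k * n + j))) =
      fun n => c (b ^ k * n + j) := fun k j hj => hdec k _ ⟨j, hj, rfl⟩
  let S : ℕ → Fin b → Fin s → Fin s := fun k d q =>
    ι (k + 1) (fun n => dec k q (b * n + d))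
  let st : ℕ → Fin s := fun k => ι k (fun n => c (b ^ k * n + 0))
  let out : ℕ → Fin s → β := fun k q => dec k q 0
  have hrun : ∀ ℓ h j N, j < b ^ h → run S h ℓ N (ι h (fun n => c (b ^ h * n + j))) =
      ι (h + ℓ) (fun n => c (b ^ (h + ℓ) * n + (b ^ h * (N % b ^ ℓ) + j))) := by
    intro ℓ
    induction ℓ with
    | zero => intro h j N _; simp [run_zero, Nat.mod_one]
    | succ ℓ ih =>
      intro h j N hj
      rw [run_succ]
      have h1 : S h (Fin.ofNat b N) (ι h (fun n => c (b ^ h * n + j))) =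
          ι (h + 1) (fun n => c (b ^ (h + 1) * n + (b ^ h * (N % b) + j))) := by
        change ι (h + 1) (fun n => dec h (ι h (fun n => c (b ^ h * n + j)))
          (b * n + (Fin.ofNat b N : Fin b))) = _
        rw [hdecj h j hj]
        congr 1
        funext n
        have : ((Fin.ofNat b N : Fin b) : ℕ) = N % b := rfl
        rw [this]
        ring_nf
      rw [h1]
      have hj' : b ^ h * (N % b) + j < b ^ (h + 1) := by
        have : N % b < b := Nat.mod_lt _ hb0
        calc b ^ h * (N % b) + j < b ^ h * (N % b) + b ^ h := by omega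
          _ = b ^ h * (N % b + 1) := by ring
          _ ≤ b ^ h * b := Nat.mul_le_mul_left _ this
          _ = b ^ (h + 1) := by ring
      rw [ih (h + 1) _ (N / b) hj']
      have e1 : h + 1 + ℓ = h + (ℓ + 1) := by ring
      rw [e1]
      congr 1
      funext n
      congr 2
      have e2 : N % b ^ (ℓ + 1) = N % b + b * (N / b % b ^ ℓ) := by
        rw [pow_succ', Nat.mod_mul]
      rw [e2]
      ring
  refine ⟨S, st, out, ?_, ?_⟩
  · intro h
    have h1 := hrun 1 h 0 0 (by positivity)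
    rw [run_succ, run_zero] at h1
    change S h (Fin.ofNat b 0) (st h) = st (h + 1)
    rw [h1]
    simp [st]
  · intro h ℓ N hN
    have h1 := hrun ℓ h 0 N (by positivity)
    change dec (h + ℓ) (run S h ℓ N (st h)) 0 = _
    change dec (h + ℓ) (run S h ℓ N (ι h (fun n => c (b ^ h * n + 0)))) 0 = _
    rw [h1, hdecj]
    · simp [Nat.mod_eq_of_lt hN]
    · rw [Nat.mod_eq_of_lt hN, add_zero, pow_add]
      exact Nat.mul_lt_mul_of_pos_left hN (by positivity)

/-- the limit of a level-dependent automaton -/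
theorem limit_automaton {b : ℕ} [NeZero b] {Q β : Type*} [Finite Q] [Finite β]
    (S : ℕ → Fin b → Q → Q) (st : ℕ → Q) (out : ℕ → Q → β)
    (hst : ∀ h, S h 0 (st h) = st (h + 1)) (c : ℕ → β)
    (hc : ∀ h ℓ N, N < b ^ ℓ → out (h + ℓ) (run S h ℓ N (st h)) = c (b ^ h * N)) :
    ∃ (p : Ultrafilter ℕ) (S' : ℕ → Fin b → Q → Q) (st' : ℕ → Q) (out' : ℕ → Q → β),
      (∀ K : ℕ, ∀ᶠ a in (p : Filter ℕ), K ≤ a) ∧
      (∀ H, ∀ᶠ a in (p : Filter ℕ), ∀ h ≤ H, S' (h + a) = S' h ∧ out' (h + a) = out' h) ∧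
      (∀ P : ℕ → Prop, (∀ᶠ a in (p : Filter ℕ), P a) →
        ∀ᶠ a in (p : Filter ℕ), ∀ᶠ a' in (p : Filter ℕ), P (a + a')) ∧
      (∀ h ℓ, run S' h ℓ 0 (st' h) = st' (h + ℓ)) ∧
      ∀ ℓ N, N < b ^ ℓ →
        ∀ᶠ y in (p : Filter ℕ), c (b ^ y * N) = out' ℓ (run S' 0 ℓ N (st' 0)) := by
  obtain ⟨p, hpK, hpadd⟩ := exists_idem
  -- limit symbols
  let sym : ℕ → (Fin b → Q → Q) × Q × (Q → β) := fun h => (S h, st h, out h)
  have hlim : ∀ h, ∃ v, ∀ᶠ a in (p : Filter ℕ), sym (a + h) = v :=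
    fun h => exists_lim p (fun a => sym (a + h))
  choose lim hlim using hlim
  have hrec : ∀ h, ∀ᶠ a in (p : Filter ℕ), lim (h + a) = lim h := by
    intro h
    have h1 := hpadd _ (hlim h)
    filter_upwards [h1] with a ha
    obtain ⟨a', h2, h3⟩ := (ha.and (hlim (h + a))).exists
    rw [← h2, ← h3]
    congr 1
    ring
  have hrecH : ∀ H, ∀ᶠ a in (p : Filter ℕ), ∀ h ≤ H, lim (h + a) = lim h := by
    intro H
    have : ∀ᶠ a in (p : Filter ℕ), ∀ h ∈ Finset.range (H + 1), lim (h + a) = lim h :=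
      (Filter.eventually_all_finset _).mpr (fun h _ => hrec h)
    filter_upwards [this] with a ha h hh
    exact ha h (Finset.mem_range.mpr (by omega))
  have hlimH : ∀ H, ∀ᶠ a in (p : Filter ℕ), ∀ h ≤ H, sym (a + h) = lim h := by
    intro H
    have : ∀ᶠ a in (p : Filter ℕ), ∀ h ∈ Finset.range (H + 1), sym (a + h) = lim h :=
      (Filter.eventually_all_finset _).mpr (fun h _ => hlim h)
    filter_upwards [this] with a ha h hh
    exact ha h (Finset.mem_range.mpr (by omega))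
  have hstL : ∀ h, (lim h).1 0 (lim h).2.1 = (lim (h + 1)).2.1 := by
    intro h
    obtain ⟨a, ha⟩ := (hlimH (h + 1)).exists
    rw [← ha h (by omega), ← ha (h + 1) le_rfl]
    exact hst (a + h)
  have hstL2 : ∀ ℓ h, run (fun k => (lim k).1) h ℓ 0 (lim h).2.1 = (lim (h + ℓ)).2.1 := by
    intro ℓ
    induction ℓ with
    | zero => intro h; rfl
    | succ ℓ ih =>
      intro h
      rw [run_succ, Nat.zero_div]
      change run (fun k => (lim k).1) (h + 1) ℓ 0 ((lim h).1 0 (lim h).2.1) = _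
      rw [hstL, ih]
      congr 3
      ring
  refine ⟨p, fun k => (lim k).1, fun k => (lim k).2.1, fun k => (lim k).2.2, hpK, ?_, hpadd,
    fun h ℓ => hstL2 ℓ h, ?_⟩
  · intro H
    filter_upwards [hrecH H] with a ha h hh
    have := ha h hh
    simp only [this, and_self]
  · intro ℓ N hN
    filter_upwards [hlimH ℓ] with a ha
    rw [← hc a ℓ N hN]
    have e1 : out (a + ℓ) = (lim ℓ).2.2 := by rw [← ha ℓ le_rfl]
    have e2 : st a = (lim 0).2.1 := by rw [← ha 0 (Nat.zero_le _)]; rfl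
    have e3 : run S a ℓ N (lim 0).2.1 = run (fun k => (lim k).1) 0 ℓ N (lim 0).2.1 := by
      apply run_congr
      intro i hi
      have : (sym (a + i)).1 = (lim i).1 := by rw [ha i (by omega)]
      simpa using this
    rw [e1, e2, e3]

/-- the limit at a place of minimal rank -/
theorem limit_min {b : ℕ} [NeZero b] {Q β : Type*} [Finite Q] [Finite β]
    (S : ℕ → Fin b → Q → Q) (st : ℕ → Q) (out : ℕ → Q → β)
    (hst : ∀ h, S h 0 (st h) = st (h + 1)) (c : ℕ → β)
    (hc : ∀ h ℓ N, N < b ^ ℓ → out (h + ℓ) (run S h ℓ N (st h)) = c (b ^ h * N)) :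
    ∃ (p : Ultrafilter ℕ) (S' : ℕ → Fin b → Q → Q) (x₀ : Q) (out' : ℕ → Q → β) (h₀ L w : ℕ),
      (∀ K : ℕ, ∀ᶠ a in (p : Filter ℕ), K ≤ a) ∧
      (∀ H, ∀ᶠ a in (p : Filter ℕ), ∀ h ≤ H, S' (h + a) = S' h ∧ out' (h + a) = out' h) ∧
      (∀ P : ℕ → Prop, (∀ᶠ a in (p : Filter ℕ), P a) →
        ∀ᶠ a in (p : Filter ℕ), ∀ᶠ a' in (p : Filter ℕ), P (a + a')) ∧
      w < b ^ L ∧
      (∀ h ℓ N, (Set.range (run S' 0 L w)).ncard ≤ (Set.range (run S' h ℓ N)).ncard) ∧
      ∀ ℓ N, N < b ^ ℓ →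
        ∀ᶠ y in (p : Filter ℕ), c (b ^ (y + h₀) * N) = out' ℓ (run S' 0 ℓ N x₀) := by
  have hb0 : 0 < b := Nat.pos_of_ne_zero (NeZero.ne b)
  obtain ⟨p, S', st', out', hpK, hrec, hpadd, hst', hcl⟩ := limit_automaton S st out hst c hc
  obtain ⟨⟨h0, L, w0⟩, hmin⟩ : ∃ t : ℕ × ℕ × ℕ, ∀ u : ℕ × ℕ × ℕ,
      (Set.range (run S' t.1 t.2.1 t.2.2)).ncard ≤ (Set.range (run S' u.1 u.2.1 u.2.2)).ncard := by
    let f : ℕ × ℕ × ℕ → ℕ := fun t => (Set.range (run S' t.1 t.2.1 t.2.2)).ncard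
    exact ⟨Function.argmin f, fun u => Function.argmin_le f u⟩
  simp only at hmin
  have hmod : run S' h0 L w0 = run S' h0 L (w0 % b ^ L) := by
    funext q
    apply run_mod
    simp
  have hwlt : w0 % b ^ L < b ^ L := Nat.mod_lt _ (by positivity)
  refine ⟨p, fun k => S' (h0 + k), st' h0, fun k => out' (h0 + k), h0, L, w0 % b ^ L, hpK, ?_,
    hpadd, hwlt, ?_, ?_⟩
  · intro H
    filter_upwards [hrec (h0 + H)] with a ha
    intro h hh
    have := ha (h0 + h) (by omega)
    simpa only [add_assoc] using this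
  · intro h ℓ N
    simp only [run_shift, add_zero, ← hmod]
    exact hmin (h0 + h, ℓ, N)
  · intro ℓ N hN
    have hN' : b ^ h0 * N < b ^ (h0 + ℓ) := by
      rw [pow_add]
      exact Nat.mul_lt_mul_of_pos_left hN (by positivity)
    filter_upwards [hcl (h0 + ℓ) (b ^ h0 * N) hN'] with y hy
    rw [pow_add, mul_assoc, hy, run_shift, run_add, Nat.mul_div_cancel_left _ (by positivity),
      Nat.zero_add, add_zero]
    congr 2
    have : run S' 0 h0 (b ^ h0 * N) (st' 0) = run S' 0 h0 0 (st' 0) := by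
      apply run_mod
      simp
    rw [this, hst', Nat.zero_add]

end Pool.Agent.Work.MP_0f91f8_co.Aut
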