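import Pool.Agent.Work.MP_0f91f8_co.Aut.Stage

/-!
Functions of bounded width are locally constant along suitable dilations.
-/

open Filter

namespace Pool.Agent.Work.MP_0f91f8_co.Aut

open Pool.Agent.Work.MP_0f91f8_co

namespace LimAut

variable {b : ℕ} [NeZero b] {Q β : Type*} [Finite Q] {D : LimAut b Q β}

omit [Finite Q] in
/-- the windows do not change under small perturbations -/
lemma win_perturb {i j t ℓ c N N' m : ℕ} {u : ℚ}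
    (h : D.Win i j t ℓ c N) (h1 : ((t : ℚ) + 1 / 3) * b ^ j < N)
    (h2 : (N : ℚ) < (t + 2 / 3) * b ^ j) (hm : i + D.L ≤ m) (hm' : 3 * (t + 1) ≤ 4 ^ m)
    (hN' : (N' : ℚ) = N * u) (hu : |u - 1| * 4 ^ m < 1) (hub : BI b ((u - 1) / b ^ m)) :
    D.Win i j t ℓ c N' := by
  have hb0 : 0 < b := Nat.pos_of_ne_zero (NeZero.ne b)
  have hbq : (0 : ℚ) < b := by exact_mod_cast hb0
  have hbj : (0 : ℚ) < (b : ℚ) ^ j := by positivity
  have hN0 : (0 : ℚ) ≤ N := by positivity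
  refine ⟨h.hi, h.hj, h.hij, h.ht, h.hℓ, h.htw, h.hcw, ?_, ?_⟩
  · rw [← h.hNc]
    obtain ⟨x, B, hB, hBb, hx⟩ := hub
    have hBq : (0 : ℚ) < B := by exact_mod_cast hB
    have h3 : (B : ℚ) * ((N' : ℚ) - N) = N * b ^ m * x := by
      have h4 : u - 1 = x / B * b ^ m := by
        rw [← hx]; field_simp
      have h5 : (N' : ℚ) - N = N * (u - 1) := by rw [hN']; ring
      rw [h5, h4]
      field_simp
    have h4 : (B : ℤ) * ((N' : ℤ) - N) = N * b ^ m * x := by exact_mod_cast h3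
    have h5 : ((b ^ (i + D.L) : ℕ) : ℤ) ∣ (B : ℤ) * ((N' : ℤ) - N) := by
      rw [h4]
      push_cast
      exact ((pow_dvd_pow (b : ℤ) hm).mul_left (N : ℤ)).mul_right x
    have h6 : IsCoprime ((b ^ (i + D.L) : ℕ) : ℤ) (B : ℤ) := by
      rw [Nat.isCoprime_iff_coprime]
      exact (hBb.symm).pow_left _
    have h7 := h6.dvd_of_dvd_mul_left h5
    have h8 : N ≡ N' [MOD b ^ (i + D.L)] := (Nat.modEq_iff_dvd).2 h7
    exact h8.symm
  · have h3 : |(N' : ℚ) - N| ≤ 1 / 3 * b ^ j := by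
      have h4 : (N' : ℚ) - N = N * (u - 1) := by rw [hN']; ring
      rw [h4, abs_mul, abs_of_nonneg hN0]
      have h5 : (3 * ((t : ℚ) + 1)) ≤ 4 ^ m := by exact_mod_cast hm'
      have h6 : |u - 1| * (3 * ((t : ℚ) + 1)) ≤ 1 :=
        (mul_le_mul_of_nonneg_left h5 (abs_nonneg _)).trans hu.le
      have h7 : (N : ℚ) ≤ (t + 1) * b ^ j := by
        have : (0 : ℚ) ≤ 1 / 3 * (b : ℚ) ^ j := by positivity
        linarith
      calc (N : ℚ) * |u - 1| ≤ (t + 1) * b ^ j * |u - 1| :=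
            mul_le_mul_of_nonneg_right h7 (abs_nonneg _)
        _ = 1 / 3 * b ^ j * (|u - 1| * (3 * ((t : ℚ) + 1))) := by ring
        _ ≤ 1 / 3 * b ^ j * 1 := mul_le_mul_of_nonneg_left h6 (by positivity)
        _ = 1 / 3 * b ^ j := by ring
    have h4 := abs_le.1 h3
    apply Nat.div_eq_of_lt_le
    · have h5 : ((t * b ^ j : ℕ) : ℚ) ≤ (N' : ℚ) := by
        push_cast
        linarith [h4.1]
      exact_mod_cast h5
    · have h5 : (N' : ℚ) < (((t + 1) * b ^ j : ℕ) : ℚ) := by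
        push_cast
        linarith [h4.2]
      exact_mod_cast h5

omit [Finite Q] in
lemma Win.lt {i j t ℓ c N : ℕ} (h : D.Win i j t ℓ c N) : N < b ^ (j + ℓ) := by
  have hb0 : 0 < b := Nat.pos_of_ne_zero (NeZero.ne b)
  have h1 : N / b ^ j < b ^ ℓ := by rw [h.hNt]; exact h.ht
  rw [pow_add, mul_comm]
  exact (Nat.div_lt_iff_lt_mul (by positivity)).mp h1

variable (D)

theorem local_const (hb : 1 < b) {h₀ : ℕ} {a : ℕ → β}
    (ha : ∀ ℓ N, N < b ^ ℓ → ∀ᶠ y in (D.p : Filter ℕ),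
      a (b ^ (y + h₀) * N) = D.out ℓ (run D.S 0 ℓ N D.x₀)) :
    ∃ μ : ℚ → ℕ, ∀ F : Finset (ℚ × ℚ), (∀ x ∈ F, 0 < x.1 ∧ BI b x.1 ∧ 0 < x.2 ∧
      |x.2 - 1| * 4 ^ (μ x.1) < 1 ∧ BI b ((x.2 - 1) / b ^ (μ x.1))) →
      ∃ k : ℕ, 0 < k ∧ ∀ x ∈ F, ∃ N N' : ℕ, (N : ℚ) = k * x.1 ∧ (N' : ℚ) = k * (x.1 * x.2) ∧
        a N = a N' := by
  classical
  have hb0 : 0 < b := by omega
  have hbq : (0 : ℚ) < b := by exact_mod_cast hb0
  obtain ⟨E, hE1, hE2, hE3⟩ := D.exists_stages hb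
  have hE4 : ∀ q : ℚ, ∃ m i t ℓ c : ℕ, 0 < q → BI b q → ∀ k ∈ E m,
      ∃ N j : ℕ, (N : ℚ) = k * q ∧ D.Win i j t ℓ c N ∧ ((t : ℚ) + 1 / 3) * b ^ j < N ∧
      (N : ℚ) < (t + 2 / 3) * b ^ j := by
    intro q
    by_cases h : 0 < q ∧ BI b q
    · obtain ⟨m, i, t, ℓ, c, h'⟩ := hE3 q h.1 h.2
      exact ⟨m, i, t, ℓ, c, fun _ _ => h'⟩
    · exact ⟨0, 0, 0, 0, 0, fun h1 h2 => absurd ⟨h1, h2⟩ h⟩
  choose m i t ℓ c hwin using hE4
  obtain ⟨n, hn, hnI⟩ := exists_exponent (Q := Q) (Set.range D.W)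
  obtain ⟨R, rfl⟩ : ∃ R, n = R + 1 := ⟨n - 1, by omega⟩
  refine ⟨fun q => max (i q + D.L) (3 * (t q + 1)), ?_⟩
  intro F hF
  simp only at hF
  have hm4 : ∀ q, 3 * (t q + 1) ≤ 4 ^ (max (i q + D.L) (3 * (t q + 1))) := by
    intro q
    calc 3 * (t q + 1) ≤ max (i q + D.L) (3 * (t q + 1)) := le_max_right _ _
      _ ≤ 4 ^ (max (i q + D.L) (3 * (t q + 1))) := (Nat.lt_pow_self (by norm_num)).le
  -- the stage
  set m₀ : ℕ := F.sup (fun x => max (m x.1) (m (x.1 * x.2))) with hm₀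
  have hm₀le : ∀ x ∈ F, m x.1 ≤ m₀ ∧ m (x.1 * x.2) ≤ m₀ := by
    intro x hx
    have := Finset.le_sup (f := fun x : ℚ × ℚ => max (m x.1) (m (x.1 * x.2))) hx
    exact ⟨(le_max_left _ _).trans this, (le_max_right _ _).trans this⟩
  obtain ⟨k₀, hk₀, hk₀pos⟩ := hE1 m₀
  have hmain : ∀ x ∈ F, ∃ N N' T : ℕ, (N : ℚ) = k₀ * x.1 ∧ (N' : ℚ) = k₀ * (x.1 * x.2) ∧
      N < b ^ T ∧ N' < b ^ T ∧
      run D.S 0 T N ((fun q => D.eta T (run D.S 0 T N q))^[R] D.x₀) =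
        run D.S 0 T N' ((fun q => D.eta T (run D.S 0 T N' q))^[R] D.x₀) := by
    intro x hx
    obtain ⟨h1, h2, h3, h4, h5⟩ := hF x hx
    obtain ⟨N, j, hN, hW, hl, hh⟩ := hwin x.1 h1 h2 k₀ (hE2 _ _ (hm₀le x hx).1 hk₀)
    have h6 : BI b x.2 := by
      have h7 := (h5.mul (BI.nat (b := b) (b ^ (max (i x.1 + D.L) (3 * (t x.1 + 1)))))).add BI.one
      have h8 : (x.2 - 1) / (b : ℚ) ^ (max (i x.1 + D.L) (3 * (t x.1 + 1))) *
          ((b ^ (max (i x.1 + D.L) (3 * (t x.1 + 1))) : ℕ) : ℚ) + 1 = x.2 := by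
        push_cast
        rw [div_mul_cancel₀ _ (pow_ne_zero _ hbq.ne')]
        ring
      rwa [h8] at h7
    obtain ⟨N', j', hN', -, -, -⟩ := hwin (x.1 * x.2) (mul_pos h1 h3) (h2.mul h6) k₀
      (hE2 _ _ (hm₀le x hx).2 hk₀)
    have hW' : D.Win (i x.1) j (t x.1) (ℓ x.1) (c x.1) N' :=
      win_perturb hW hl hh (le_max_left _ _) (hm4 x.1) (by rw [hN', hN]; ring) h4 h5
    exact ⟨N, N', j + ℓ x.1, hN, hN', hW.lt, hW'.lt, power_eq hb hnI hW hW'⟩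
  choose! N N' T hN hN' hNT hN'T hpow using hmain
  obtain ⟨κ, d, hκ, hκd⟩ := D.blocks hb R (F.sup T)
  have hTle : ∀ x ∈ F, T x ≤ F.sup T := fun x hx => Finset.le_sup hx
  have hy : ∀ᶠ y in (D.p : Filter ℕ), ∀ x ∈ F,
      a (b ^ (y + h₀) * (κ * N x)) = D.out (d + T x) (run D.S 0 (d + T x) (κ * N x) D.x₀) ∧
      a (b ^ (y + h₀) * (κ * N' x)) = D.out (d + T x) (run D.S 0 (d + T x) (κ * N' x) D.x₀) := by
    refine (Filter.eventually_all_finset _).mpr (fun x hx => ?_)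
    have h1 := ha (d + T x) (κ * N x) (hκd (T x) (hTle x hx) (N x) (hNT x hx)).1
    have h2 := ha (d + T x) (κ * N' x) (hκd (T x) (hTle x hx) (N' x) (hN'T x hx)).1
    exact h1.and h2
  obtain ⟨y, hy⟩ := hy.exists
  refine ⟨b ^ (y + h₀) * κ * k₀, by positivity, ?_⟩
  intro x hx
  refine ⟨b ^ (y + h₀) * (κ * N x), b ^ (y + h₀) * (κ * N' x), ?_, ?_, ?_⟩
  · push_cast
    rw [hN x hx]
    ring
  · push_cast
    rw [hN' x hx]
    ring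
  · rw [(hy x hx).1, (hy x hx).2]
    congr 1
    rw [(hκd (T x) (hTle x hx) (N x) (hNT x hx)).2,
      (hκd (T x) (hTle x hx) (N' x) (hN'T x hx)).2, hpow x hx]

end LimAut

/-- functions of bounded width are locally constant along suitable dilations -/
theorem bw_local {β : Type*} [Finite β] (b s : ℕ) (hb : 2 ≤ b) (a : ℕ → β)
    (ha : ∀ k : ℕ, {g : ℕ → β | ∃ j < b ^ k, g = fun n => a (b ^ k * n + j)}.encard ≤ s) :
    ∃ μ : ℚ → ℕ, ∀ F : Finset (ℚ × ℚ), (∀ x ∈ F, 0 < x.1 ∧ BI b x.1 ∧ 0 < x.2 ∧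
      |x.2 - 1| * 4 ^ (μ x.1) < 1 ∧ BI b ((x.2 - 1) / b ^ (μ x.1))) →
      ∃ k : ℕ, 0 < k ∧ ∀ x ∈ F, ∃ N N' : ℕ, (N : ℚ) = k * x.1 ∧ (N' : ℚ) = k * (x.1 * x.2) ∧
        a N = a N' := by
  have : NeZero b := ⟨by omega⟩
  obtain ⟨S, st, out, h1, h2⟩ := bw_automaton b s a ha
  obtain ⟨p, S', x₀, out', h₀, L, w, g1, g2, g3, g4, g5, g6⟩ := limit_min S st out h1 a h2
  exact LimAut.local_const (⟨p, S', x₀, out', L, w, g1, g2, g3, g4, g5⟩ : LimAut b (Fin s) β)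
    (by omega) g6

end Pool.Agent.Work.MP_0f91f8_co.Aut
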