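import Pool.Agent.Work.MP_0f91f8_co.Aut.Local
import Pool.Agent.Work.MP_0f91f8_co.Aut.CoreL

/-!
Pythagorean triples in colourings determined by functions of bounded width and completely
multiplicative functions.
-/

open Filter Topology

namespace Pool.Agent.Work.MP_0f91f8_co.Aut

open Pool.Agent.Work.MP_0f91f8_co.Bohr

lemma summable_wt_union {Q : Set ℕ} (hs : Summable (wt Q)) {b : ℕ} (hb : 0 < b) :
    Summable (wt (Q ∪ {p : ℕ | p.Prime ∧ p ∣ b})) := by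
  classical
  have h1 : Summable (fun q : ℕ => if q ∈ Finset.range (b + 1) then (1 : ℝ) else 0) := by
    apply summable_of_ne_finset_zero (s := Finset.range (b + 1))
    intro q hq
    rw [if_neg hq]
  refine Summable.of_nonneg_of_le (wt_nonneg _) (fun q => ?_) (hs.add h1)
  by_cases hq : q ∈ Q
  · rw [wt_of_mem (Set.mem_union_left _ hq), wt_of_mem hq]
    have : (0 : ℝ) ≤ if q ∈ Finset.range (b + 1) then (1 : ℝ) else 0 := by split_ifs <;> norm_num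
    linarith
  · by_cases hq' : q ∈ {p : ℕ | p.Prime ∧ p ∣ b}
    · rw [wt_of_mem (Set.mem_union_right _ hq')]
      have h2 : q ∈ Finset.range (b + 1) := by
        rw [Finset.mem_range]
        have := Nat.le_of_dvd hb hq'.2
        omega
      rw [if_pos h2]
      have h3 := wt_nonneg Q q
      have h4 : (1 : ℝ) ≤ Real.sqrt q := by
        rw [Real.one_le_sqrt]
        exact_mod_cast hq'.1.one_lt.le
      have h5 : 1 / Real.sqrt q ≤ 1 := by
        rw [div_le_one (by linarith)]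
        exact h4
      linarith
    · have h2 : wt (Q ∪ {p : ℕ | p.Prime ∧ p ∣ b}) q = 0 := by
        unfold wt
        rw [Set.indicator_of_notMem]
        rintro (h | h)
        · exact hq h
        · exact hq' h
      rw [h2]
      have h3 := wt_nonneg Q q
      have : (0 : ℝ) ≤ if q ∈ Finset.range (b + 1) then (1 : ℝ) else 0 := by
        split_ifs <;> norm_num
      linarith

variable {K : Type*} [CommGroup K] [TopologicalSpace K] [IsTopologicalGroup K] [CompactSpace K]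

theorem main {f : ℕ → K} (hf : ∀ m n : ℕ, 0 < m → 0 < n → f (m * n) = f m * f n)
    {n₀ : ℕ} (hn₀ : 0 < n₀) {U : Set K} (hU : U ∈ 𝓝 (f n₀))
    {α : Type*} [Finite α] {b s : ℕ} (hb : 2 ≤ b) {a : ℕ → α}
    (ha : ∀ k : ℕ, {g : ℕ → α | ∃ j < b ^ k, g = fun n => a (b ^ k * n + j)}.encard ≤ s)
    {Q : Set ℕ} (hQ : ∀ q ∈ Q, q.Prime) (hs : Summable (fun q : Q => 1 / Real.sqrt (q : ℕ)))
    {δ : ℝ} (hδ : 0 < δ) {r : ℕ} {c : ℕ → Fin r}
    (hc : ∀ m n : ℕ, 0 < m → 0 < n → a m = a n → f m ∈ U → f n ∈ U →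
      (∀ q ∈ Q, padicValNat q m = padicValNat q n) → |(m : ℝ) - n| ≤ δ * m → c m = c n) :
    ∃ x y z : ℕ, 0 < x ∧ 0 < y ∧ 0 < z ∧ x ^ 2 + y ^ 2 = z ^ 2 ∧
      f x ∈ U ∧ f y ∈ U ∧ f z ∈ U ∧ c x = c y ∧ c y = c z := by
  classical
  have hb0 : 0 < b := by omega
  have hs' : Summable (wt Q) := by
    have h1 := (summable_subtype_iff_indicator (f := fun q : ℕ => 1 / Real.sqrt q) (s := Q)).1 hs
    exact h1
  obtain ⟨Q', hQ'def⟩ : ∃ Q' : Set ℕ, Q' = Q ∪ {p : ℕ | p.Prime ∧ p ∣ b} := ⟨_, rfl⟩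
  have hQ' : ∀ q ∈ Q', q.Prime := by
    intro q hq
    rw [hQ'def] at hq
    rcases hq with h | h
    · exact hQ q h
    · exact h.1
  have hbQ' : ∀ p : ℕ, p.Prime → p ∣ b → p ∈ Q' := by
    intro p hp hpb
    rw [hQ'def]
    exact Or.inr ⟨hp, hpb⟩
  have hQQ' : ∀ q ∈ Q, q ∈ Q' := by
    intro q hq
    rw [hQ'def]
    exact Or.inl hq
  have hs'' : Summable (wt Q') := by
    rw [hQ'def]
    exact summable_wt_union hs' hb0
  obtain ⟨δ', hδ'0, hδ'⟩ : ∃ δ' : ℚ, 0 < δ' ∧ (δ' : ℝ) < δ := by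
    obtain ⟨d, hd0, hd⟩ := exists_rat_btwn hδ
    exact ⟨d, by exact_mod_cast hd0, hd⟩
  obtain ⟨mδ, hmδ⟩ : ∃ m : ℕ, (1 : ℚ) / 4 ^ m < δ' := by
    obtain ⟨m, hm⟩ := exists_pow_lt_of_lt_one hδ'0 (show (1 / 4 : ℚ) < 1 by norm_num)
    exact ⟨m, by rwa [one_div_pow] at hm⟩
  obtain ⟨μ, hμ⟩ := bw_local b s hb a ha
  -- the filter of good dilations
  let good : Finset (ℚ × ℚ) → Prop := fun F => ∀ x ∈ F, 0 < x.1 ∧ BI b x.1 ∧ 0 < x.2 ∧
      |x.2 - 1| * 4 ^ (μ x.1) < 1 ∧ BI b ((x.2 - 1) / b ^ (μ x.1))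
  let E : {F : Finset (ℚ × ℚ) // good F} → Set ℕ := fun F =>
    {k | 0 < k ∧ ∀ x ∈ F.1, ∃ N N' : ℕ, (N : ℚ) = k * x.1 ∧ (N' : ℚ) = k * (x.1 * x.2) ∧
        a N = a N'}
  have hne : Nonempty {F : Finset (ℚ × ℚ) // good F} := ⟨⟨∅, by intro x hx; simp at hx⟩⟩
  have hdir : Directed (· ≥ ·) (fun p => 𝓟 (E p)) := by
    rintro ⟨F₁, h₁⟩ ⟨F₂, h₂⟩
    refine ⟨⟨F₁ ∪ F₂, ?_⟩, ?_, ?_⟩
    · intro q hq
      rcases Finset.mem_union.1 hq with h | h
      · exact h₁ q h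
      · exact h₂ q h
    · apply principal_mono.2
      rintro k ⟨hk, hkS⟩
      exact ⟨hk, fun q hq => hkS q (Finset.mem_union_left _ hq)⟩
    · apply principal_mono.2
      rintro k ⟨hk, hkS⟩
      exact ⟨hk, fun q hq => hkS q (Finset.mem_union_right _ hq)⟩
  have hbot : NeBot (⨅ p, 𝓟 (E p)) := by
    apply iInf_neBot_of_directed' hdir
    rintro ⟨F, hF⟩
    rw [principal_neBot_iff]
    exact hμ F hF
  obtain ⟨𝒰, h𝒰⟩ : ∃ 𝒰 : Ultrafilter ℕ, (𝒰 : Filter ℕ) ≤ ⨅ p, 𝓟 (E p) :=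
    ⟨Ultrafilter.of _, Ultrafilter.of_le _⟩
  have hev : ∀ q u : ℚ, 0 < q → BI b q → 0 < u → |u - 1| * 4 ^ (μ q) < 1 →
      BI b ((u - 1) / b ^ (μ q)) → ∀ᶠ k : ℕ in (𝒰 : Filter ℕ), 0 < k ∧ ∃ N N' : ℕ,
        (N : ℚ) = k * q ∧ (N' : ℚ) = k * (q * u) ∧ a N = a N' := by
    intro q u h1 h2 h3 h4 h5
    have hg : good {(q, u)} := by
      intro x hx
      rw [Finset.mem_singleton] at hx
      rw [hx]
      exact ⟨h1, h2, h3, h4, h5⟩
    have h6 : (𝒰 : Filter ℕ) ≤ 𝓟 (E ⟨{(q, u)}, hg⟩) := h𝒰.trans (iInf_le _ _)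
    have h7 : ∀ᶠ k : ℕ in (𝒰 : Filter ℕ), k ∈ E ⟨{(q, u)}, hg⟩ := le_principal_iff.1 h6
    filter_upwards [h7] with k hk
    exact ⟨hk.1, hk.2 (q, u) (Finset.mem_singleton_self _)⟩
  have hint : ∀ q : ℚ, 0 < q → BI b q → ∀ᶠ k : ℕ in (𝒰 : Filter ℕ), 0 < k ∧ ∃ N : ℕ,
      (N : ℚ) = k * q := by
    intro q h1 h2
    have h3 := hev q 1 h1 h2 one_pos (by simp) (by simpa using BI.int (b := b) 0)
    filter_upwards [h3] with k hk
    obtain ⟨hk0, N, -, hN, -, -⟩ := hk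
    exact ⟨hk0, N, hN⟩
  have hpos : ∀ᶠ k : ℕ in (𝒰 : Filter ℕ), 0 < k :=
    (hint 1 one_pos BI.one).mono fun _ h => h.1
  -- the limit of `f`
  obtain ⟨κ₀, -, hκ₀'⟩ := (isCompact_univ (X := K)).ultrafilter_le_nhds (𝒰.map f) (by simp)
  have hκ₀ : Tendsto f (𝒰 : Filter ℕ) (𝓝 κ₀) := hκ₀'
  have hfpow : ∀ (x n : ℕ), 0 < x → f (x ^ n) = f x ^ n := fun x n hx => f_pow hf hx n
  -- the base point
  obtain ⟨n₁, hn₁, hn₁U⟩ : ∃ n₁ : ℕ, 0 < n₁ ∧ κ₀ * f n₁ ∈ interior U := by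
    have h1 : {v : K | f n₀ * v ∈ interior U} ∈ 𝓝 (1 : K) := by
      have hcont : Continuous (fun v : K => f n₀ * v) := by fun_prop
      have ht : Tendsto (fun v : K => f n₀ * v) (𝓝 1) (𝓝 (f n₀)) := by
        have := hcont.tendsto 1
        simpa using this
      exact ht (interior_mem_nhds.2 hU)
    obtain ⟨V, hV, hVV⟩ := exists_nhds_one_split h1
    have h2 : Tendsto (fun k => κ₀ * (f k)⁻¹) (𝒰 : Filter ℕ) (𝓝 1) := by
      have h3 : Tendsto (fun k => κ₀ * (f k)⁻¹) (𝒰 : Filter ℕ) (𝓝 (κ₀ * κ₀⁻¹)) :=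
        tendsto_const_nhds.mul hκ₀.inv
      simpa using h3
    obtain ⟨k, hk, hkpos⟩ := ((h2.eventually hV).and hpos).exists
    obtain ⟨e, he, hfe⟩ := exists_pow V hV (f k)
    refine ⟨n₀ * k ^ (e - 1), Nat.mul_pos hn₀ (pow_pos hkpos _), ?_⟩
    have h4 := hVV _ hk _ hfe
    have h5 : κ₀ * f (n₀ * k ^ (e - 1)) = f n₀ * (κ₀ * (f k)⁻¹ * f k ^ e) := by
      rw [hf _ _ hn₀ (pow_pos hkpos _), hfpow _ _ hkpos]
      have h6 : f k ^ e = f k * f k ^ (e - 1) := by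
        rw [← pow_succ']; congr 1; omega
      rw [h6, ← mul_assoc (κ₀ * (f k)⁻¹), inv_mul_cancel_right]
      exact mul_left_comm _ _ _
    rw [h5]
    exact h4
  -- the limit colouring
  have hCex : ∀ q : ℚ, ∃ i : Fin r, ∀ᶠ k : ℕ in (𝒰 : Filter ℕ), c ⌊(k : ℚ) * q⌋₊ = i := by
    intro q
    obtain ⟨i, hi⟩ := Ultrafilter.eq_pure_of_finite (𝒰.map (fun k : ℕ => c ⌊(k : ℚ) * q⌋₊))
    refine ⟨i, ?_⟩
    have h1 : ({i} : Set (Fin r)) ∈ 𝒰.map (fun k : ℕ => c ⌊(k : ℚ) * q⌋₊) := by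
      rw [hi]
      exact rfl
    exact h1
  choose C hC using hCex
  have hfq : ∀ (k n : ℕ) (q : ℚ), 0 < k → 0 < q → (n : ℚ) = k * q → f n = f k * gq f q := by
    intro k n q hk hq hn
    have hk' : (0 : ℚ) < k := by exact_mod_cast hk
    have hnpos : 0 < n := by
      have : (0 : ℚ) < n := by rw [hn]; exact mul_pos hk' hq
      exact_mod_cast this
    rw [← gq_nat hf hnpos, hn, gq_mul hf hk' hq, gq_nat hf hk]
  have hevU : ∀ q : ℚ, κ₀ * gq f q ∈ interior U →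
      ∀ᶠ k : ℕ in (𝒰 : Filter ℕ), f k * gq f q ∈ interior U := by
    intro q hq
    have h1 : Tendsto (fun k => f k * gq f q) (𝒰 : Filter ℕ) (𝓝 (κ₀ * gq f q)) :=
      hκ₀.mul tendsto_const_nhds
    exact h1.eventually (isOpen_interior.mem_nhds hq)
  obtain ⟨U', hU'def⟩ : ∃ U' : Set K, U' = {v : K | κ₀ * v ∈ interior U} := ⟨_, rfl⟩
  have hmemU' : ∀ v : K, v ∈ U' ↔ κ₀ * v ∈ interior U := by intro v; rw [hU'def]; exact Iff.rfl
  have hU'open : IsOpen U' := by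
    rw [hU'def]
    exact isOpen_interior.preimage (continuous_const.mul continuous_id)
  have hU'n : U' ∈ 𝓝 (gq f (n₁ : ℚ)) := by
    apply hU'open.mem_nhds
    rw [hmemU', gq_nat hf hn₁]
    exact hn₁U
  have hprop : ∀ q : ℚ, 0 < q → BI b q → gq f q ∈ U' → ∃ m : ℕ, ∀ u : ℚ, Cl b Q' m u →
      gq f (q * u) ∈ U' → C q = C (q * u) := by
    intro q hq hqb hqU
    refine ⟨max (μ q) mδ, fun u hu hquU => ?_⟩
    have hu1 := hu.mono hb0 (le_max_left (μ q) mδ)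
    have hu2 := hu.mono hb0 (le_max_right (μ q) mδ)
    have hupos := hu.pos
    have h1 := hev q u hq hqb hupos hu1.close hu1.bint
    have h2 := hevU q ((hmemU' _).1 hqU)
    have h3 := hevU (q * u) ((hmemU' _).1 hquU)
    obtain ⟨k, ⟨hk, n, m, hn, hm, hamn⟩, hkU, hkU', hCq, hCqu⟩ :=
      (h1.and (h2.and (h3.and ((hC q).and (hC (q * u)))))).exists
    rw [← hn, Nat.floor_natCast] at hCq
    rw [← hm, Nat.floor_natCast] at hCqu
    rw [← hCq, ← hCqu]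
    have hk' : (0 : ℚ) < k := by exact_mod_cast hk
    have hnq : (0 : ℚ) < n := by rw [hn]; exact mul_pos hk' hq
    have hmq : (0 : ℚ) < m := by rw [hm]; exact mul_pos hk' (mul_pos hq hupos)
    have hnpos : 0 < n := by exact_mod_cast hnq
    have hmpos : 0 < m := by exact_mod_cast hmq
    have hmn : (m : ℚ) = n * u := by rw [hm, hn]; ring
    apply hc n m hnpos hmpos hamn
    · rw [hfq k n q hk hq hn]
      exact interior_subset hkU
    · rw [hfq k m (q * u) hk (mul_pos hq hupos) hm]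
      exact interior_subset hkU'
    · obtain ⟨A₀, B₀, hA₀, hB₀, hAQ, hBQ, huv⟩ := hu.qu
      have hBne : (B₀ : ℚ) ≠ 0 := by exact_mod_cast hB₀.ne'
      have h3 : m * B₀ = n * A₀ := by
        have h4 : (m : ℚ) * B₀ = n * A₀ := by
          rw [hmn, huv]
          field_simp
        exact_mod_cast h4
      intro p hp
      have : Fact p.Prime := ⟨hQ p hp⟩
      have h5 := congrArg (padicValNat p) h3
      rw [padicValNat.mul hmpos.ne' hB₀.ne', padicValNat.mul hnpos.ne' hA₀.ne',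
        padicValNat.eq_zero_of_not_dvd (hAQ p (hQQ' p hp)),
        padicValNat.eq_zero_of_not_dvd (hBQ p (hQQ' p hp))] at h5
      simpa using h5.symm
    · have hclose : |u - 1| < δ' := hu2.close'.trans hmδ
      have h3 : |(n : ℚ) - m| ≤ δ' * n := by
        have h4 : (n : ℚ) - m = -(n * (u - 1)) := by rw [hmn]; ring
        rw [h4, abs_neg, abs_mul, abs_of_pos hnq, mul_comm]
        exact mul_le_mul_of_nonneg_right hclose.le hnq.le
      have h5 : |(n : ℝ) - m| ≤ δ' * n := by exact_mod_cast h3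
      refine h5.trans ?_
      have : (0 : ℝ) ≤ n := by positivity
      exact mul_le_mul_of_nonneg_right hδ'.le this
  obtain ⟨X, Y, Z, hX, hY, hZ, hXb, hYb, hZb, hXYZ, hCXY, hCYZ, hXU, hYU, hZU⟩ :=
    core' hb0 hf hQ' hbQ' hs'' C (n₁ : ℚ) (by exact_mod_cast hn₁) (BI.nat n₁) U' hU'n hprop
  obtain ⟨k, ⟨hk, x, hx⟩, ⟨-, y, hy⟩, ⟨-, z, hz⟩, hkX, hkY, hkZ, hCX, hCY, hCZ⟩ :=
    ((hint X hX hXb).and ((hint Y hY hYb).and ((hint Z hZ hZb).and
      ((hevU X ((hmemU' _).1 hXU)).and ((hevU Y ((hmemU' _).1 hYU)).and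
      ((hevU Z ((hmemU' _).1 hZU)).and ((hC X).and ((hC Y).and (hC Z))))))))).exists
  rw [← hx, Nat.floor_natCast] at hCX
  rw [← hy, Nat.floor_natCast] at hCY
  rw [← hz, Nat.floor_natCast] at hCZ
  have hk' : (0 : ℚ) < k := by exact_mod_cast hk
  have hxpos : 0 < x := by
    have : (0 : ℚ) < x := by rw [hx]; exact mul_pos hk' hX
    exact_mod_cast this
  have hypos : 0 < y := by
    have : (0 : ℚ) < y := by rw [hy]; exact mul_pos hk' hY
    exact_mod_cast this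
  have hzpos : 0 < z := by
    have : (0 : ℚ) < z := by rw [hz]; exact mul_pos hk' hZ
    exact_mod_cast this
  refine ⟨x, y, z, hxpos, hypos, hzpos, ?_, ?_, ?_, ?_, ?_, ?_⟩
  · have : (x : ℚ) ^ 2 + (y : ℚ) ^ 2 = (z : ℚ) ^ 2 := by
      rw [hx, hy, hz]
      calc ((k : ℚ) * X) ^ 2 + (k * Y) ^ 2 = k ^ 2 * (X ^ 2 + Y ^ 2) := by ring
        _ = k ^ 2 * Z ^ 2 := by rw [hXYZ]
        _ = (k * Z) ^ 2 := by ring
    exact_mod_cast this
  · rw [hfq k x X hk hX hx]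
    exact interior_subset hkX
  · rw [hfq k y Y hk hY hy]
    exact interior_subset hkY
  · rw [hfq k z Z hk hZ hz]
    exact interior_subset hkZ
  · rw [hCX, hCY, hCXY]
  · rw [hCY, hCZ, hCYZ]

end Pool.Agent.Work.MP_0f91f8_co.Aut
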