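import Pool.Agent.Work.MP_0f91f8_co.Aut.Block
import Pool.Agent.Work.MP_0f91f8_co.Aut.Int

/-!
Nested sets of dilations whose multiples carry the minimal word at prescribed places.
-/

open Filter

namespace Pool.Agent.Work.MP_0f91f8_co.Aut

open Pool.Agent.Work.MP_0f91f8_co

/-- separating the part composed of the primes of the base -/
lemma exists_split (b : ℕ) : ∀ A : ℕ, 0 < A → ∃ A₁ A₂ A₃ v : ℕ, A = A₁ * A₂ ∧
    A₂ * A₃ = b ^ v ∧ A₁.Coprime b := by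
  intro A
  induction A using Nat.strong_induction_on with
  | _ A ih =>
    intro hA
    by_cases h : A.Coprime b
    · exact ⟨A, 1, 1, 0, by simp, by simp, h⟩
    · have hg : 1 < Nat.gcd A b := by
        have h1 : Nat.gcd A b ≠ 1 := h
        have h2 : 0 < Nat.gcd A b := Nat.gcd_pos_of_pos_left b hA
        omega
      obtain ⟨A', hA'⟩ := Nat.gcd_dvd_left A b
      obtain ⟨b', hb'⟩ := Nat.gcd_dvd_right A b
      have hA'pos : 0 < A' := by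
        rcases Nat.eq_zero_or_pos A' with h0 | h0
        · rw [h0, mul_zero] at hA'; omega
        · exact h0
      have hlt : A' < A := by
        calc A' < Nat.gcd A b * A' := by nlinarith
          _ = A := hA'.symm
      obtain ⟨A₁, A₂, A₃, v, h1, h2, h3⟩ := ih A' hlt hA'pos
      refine ⟨A₁, Nat.gcd A b * A₂, b' * A₃, v + 1, ?_, ?_, h3⟩
      · calc A = Nat.gcd A b * A' := hA'
          _ = Nat.gcd A b * (A₁ * A₂) := by rw [← h1]
          _ = A₁ * (Nat.gcd A b * A₂) := by ring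
      · calc Nat.gcd A b * A₂ * (b' * A₃) = (Nat.gcd A b * b') * (A₂ * A₃) := by ring
          _ = b * b ^ v := by rw [← hb', h2]
          _ = b ^ (v + 1) := by ring

/-- inverses modulo powers of the base -/
lemma exists_inv {b A : ℕ} (h : A.Coprime b) (E : ℕ) : ∃ A' : ℕ, A * A' ≡ 1 [MOD b ^ E] := by
  rcases Nat.lt_or_ge 1 (b ^ E) with h1 | h1
  · obtain ⟨m, -, hm⟩ := Nat.exists_mul_mod_eq_one_of_coprime (h.pow_right E) h1
    refine ⟨m, ?_⟩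
    unfold Nat.ModEq
    rw [hm, Nat.mod_eq_of_lt h1]
  · rcases Nat.eq_zero_or_pos (b ^ E) with h0 | h0
    · have hb0 : b = 0 := by
        by_contra hb
        exact absurd h0 (pow_ne_zero _ hb)
      rw [hb0, Nat.coprime_zero_right] at h
      exact ⟨1, by rw [h]⟩
    · have h2 : b ^ E = 1 := by omega
      rw [h2]
      exact ⟨1, Nat.modEq_one⟩

/-- the parameters of a stage -/
structure Stage where
  g : ℕ
  e : ℕ
  M : ℕ
  x₁ : ℚ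
  x₂ : ℚ
  A : Set ℕ

/-- the dilations of a stage -/
def Stage.E (b : ℕ) (σ : Stage) : Set ℕ :=
  {k | k ≡ σ.g [MOD b ^ σ.e] ∧ σ.M ∣ k ∧ ∃ y ∈ σ.A, (b : ℚ) ^ y * σ.x₁ < k ∧
    (k : ℚ) < (b : ℚ) ^ y * σ.x₂}

namespace LimAut

variable {b : ℕ} [NeZero b] {Q β : Type*} [Finite Q] (D : LimAut b Q β)

/-- a valid stage -/
structure Valid (σ : Stage) : Prop where
  hM : 0 < σ.M
  hMb : σ.M.Coprime b
  hx₁ : 0 < σ.x₁
  hx : σ.x₁ < σ.x₂
  hA : ∀ᶠ y in (D.p : Filter ℕ), y ∈ σ.A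

variable {D}

omit [Finite Q] in
/-- eventually powers are large -/
lemma exists_large (hb : 1 < b) (x : ℚ) : ∀ᶠ y in (D.p : Filter ℕ), x < (b : ℚ) ^ y := by
  obtain ⟨K, hK⟩ := exists_nat_gt x
  filter_upwards [D.hpK K] with y hy
  have h1 : y < b ^ y := Nat.lt_pow_self hb
  have h2 : ((K : ℕ) : ℚ) ≤ ((b ^ y : ℕ) : ℚ) := by exact_mod_cast (hy.trans h1.le)
  calc x < K := hK
    _ ≤ ((b ^ y : ℕ) : ℚ) := h2
    _ = (b : ℚ) ^ y := by push_cast; ring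

omit [Finite Q] in
lemma stage_nonempty (hb : 1 < b) {σ : Stage} (h : D.Valid σ) : ∃ k ∈ σ.E b, 0 < k := by
  have hb0 : 0 < b := by omega
  set P : ℕ := b ^ σ.e * σ.M with hP
  have hPpos : 0 < P := Nat.mul_pos (by positivity) h.hM
  have hPq : (0 : ℚ) < P := by exact_mod_cast hPpos
  have hd : 0 < σ.x₂ - σ.x₁ := sub_pos.2 h.hx
  obtain ⟨y, hyA, hy⟩ := (h.hA.and (exists_large (D := D) hb (2 * P / (σ.x₂ - σ.x₁)))).exists
  rw [div_lt_iff₀ hd] at hy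
  have hcop : Nat.Coprime (b ^ σ.e) σ.M := (h.hMb.symm).pow_left _
  obtain ⟨c, hc1, hc2⟩ := Nat.chineseRemainder hcop σ.g 0
  set c' := c % P with hc'
  have hc'lt : c' < P := Nat.mod_lt _ hPpos
  have hc'1 : c' ≡ σ.g [MOD b ^ σ.e] := by
    have h1 : c' ≡ c [MOD P] := Nat.mod_modEq _ _
    exact (h1.of_dvd (Dvd.intro _ rfl)).trans hc1
  have hc'2 : σ.M ∣ c' := by
    have h1 : c' ≡ c [MOD P] := Nat.mod_modEq _ _
    have h2 := (h1.of_dvd (Dvd.intro_left _ rfl)).trans hc2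
    exact (Nat.modEq_zero_iff_dvd).1 h2
  have hby : (0 : ℚ) < (b : ℚ) ^ y := by
    have : (0 : ℚ) < b := by exact_mod_cast hb0
    positivity
  have hxy : 0 < (b : ℚ) ^ y * σ.x₁ := mul_pos hby h.hx₁
  set n : ℕ := ⌊(b : ℚ) ^ y * σ.x₁ / P⌋₊ + 1 with hn
  have hn1 : (b : ℚ) ^ y * σ.x₁ < P * n := by
    have h1 := Nat.lt_floor_add_one ((b : ℚ) ^ y * σ.x₁ / P)
    rw [div_lt_iff₀ hPq] at h1
    rw [hn]
    push_cast
    linarith
  have hn2 : (P : ℚ) * n ≤ (b : ℚ) ^ y * σ.x₁ + P := by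
    have h1 := Nat.floor_le (div_nonneg hxy.le hPq.le)
    rw [le_div_iff₀ hPq] at h1
    rw [hn]
    push_cast
    linarith
  refine ⟨c' + P * n, ⟨?_, ?_, y, hyA, ?_, ?_⟩, ?_⟩
  · have h1 : P * n ≡ 0 [MOD b ^ σ.e] := by
      rw [Nat.modEq_zero_iff_dvd, hP, mul_assoc]
      exact Dvd.intro _ rfl
    simpa using hc'1.add h1
  · refine (Nat.dvd_add_right hc'2).2 ?_
    rw [hP]
    exact ((Dvd.intro_left _ rfl : σ.M ∣ b ^ σ.e * σ.M)).mul_right n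
  · push_cast
    have : (0 : ℚ) ≤ c' := by positivity
    linarith
  · push_cast
    have h1 : (c' : ℚ) < P := by exact_mod_cast hc'lt
    have h2 : (2 : ℚ) * P < (b : ℚ) ^ y * σ.x₂ - (b : ℚ) ^ y * σ.x₁ := by
      rw [← mul_sub]; exact hy
    linarith
  · have : 0 < n := by omega
    have := Nat.mul_pos hPpos this
    omega

omit [Finite Q] in
/-- refining a stage -/
lemma refine_stage (hb : 1 < b) {σ : Stage} (h : D.Valid σ) {q : ℚ} (hq : 0 < q) (hqb : BI b q) :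
    ∃ σ' : Stage, D.Valid σ' ∧ σ'.E b ⊆ σ.E b ∧ ∃ i t ℓ c : ℕ, ∀ k ∈ σ'.E b, ∃ N j : ℕ,
      (N : ℚ) = k * q ∧ D.Win i j t ℓ c N ∧ ((t : ℚ) + 1 / 3) * b ^ j < N ∧
      (N : ℚ) < (t + 2 / 3) * b ^ j := by
  have hb0 : 0 < b := by omega
  have hbq : (0 : ℚ) < b := by exact_mod_cast hb0
  obtain ⟨n, B₀, hB₀, hB₀b, hqn⟩ := hqb
  have hB₀q : (0 : ℚ) < B₀ := by exact_mod_cast hB₀
  obtain ⟨A₀, rfl⟩ : ∃ A₀ : ℕ, n = A₀ := by
    have : 0 < n := by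
      rw [hqn, div_pos_iff_of_pos_right hB₀q] at hq
      exact_mod_cast hq
    exact ⟨n.toNat, (Int.toNat_of_nonneg this.le).symm⟩
  have hA₀ : 0 < A₀ := by
    rw [hqn, div_pos_iff_of_pos_right hB₀q] at hq
    exact_mod_cast hq
  have hqn' : q = (A₀ : ℚ) / B₀ := by rw [hqn]; simp
  obtain ⟨A₁, A₂, A₃, v, hA, hA23, hA₁⟩ := exists_split b A₀ hA₀
  -- the low place
  obtain ⟨i, hi1, hi2⟩ := ((D.hpK (σ.e + v)).and (D.hrec D.L)).exists
  obtain ⟨A₁', hA₁'⟩ := exists_inv hA₁ (i + D.L)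
  obtain ⟨B₀', hB₀'⟩ := exists_inv hB₀b (i + D.L)
  set c₀ := A₀ * σ.g * B₀' with hc₀
  set c := c₀ % b ^ (σ.e + v) + b ^ i * (D.w + b ^ D.L * c₀) with hc
  obtain ⟨h'', hh''⟩ : ∃ h'' : ℕ, c = c₀ + b ^ (σ.e + v) * h'' := by
    have h1 : c₀ / b ^ (σ.e + v) ≤ b ^ (i - (σ.e + v)) * (D.w + b ^ D.L * c₀) := by
      calc c₀ / b ^ (σ.e + v) ≤ c₀ := Nat.div_le_self _ _
        _ = 1 * (0 + 1 * c₀) := by ring
        _ ≤ b ^ (i - (σ.e + v)) * (D.w + b ^ D.L * c₀) := by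
          have h2 : 1 ≤ b ^ (i - (σ.e + v)) := Nat.one_le_pow _ _ hb0
          have h3 : 1 ≤ b ^ D.L := Nat.one_le_pow _ _ hb0
          gcongr
          omega
    obtain ⟨d, hd⟩ := Nat.exists_eq_add_of_le h1
    refine ⟨d, ?_⟩
    have h2 : b ^ i = b ^ (σ.e + v) * b ^ (i - (σ.e + v)) := by
      rw [← pow_add]; congr 1; omega
    have h3 := Nat.mod_add_div c₀ (b ^ (σ.e + v))
    calc c = c₀ % b ^ (σ.e + v) + b ^ (σ.e + v) *
          (b ^ (i - (σ.e + v)) * (D.w + b ^ D.L * c₀)) := by rw [hc, h2, mul_assoc]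
      _ = c₀ % b ^ (σ.e + v) + b ^ (σ.e + v) * (c₀ / b ^ (σ.e + v)) + b ^ (σ.e + v) * d := by
          rw [hd]; ring
      _ = c₀ + b ^ (σ.e + v) * d := by rw [h3]
  set g' := σ.g + b ^ σ.e * (A₃ * A₁' * B₀ * h'') with hg'
  have hcg : A₀ * g' ≡ c * B₀ [MOD b ^ (i + D.L)] := by
    have h1 : A₀ * g' = A₀ * σ.g * 1 + b ^ (σ.e + v) * B₀ * h'' * (A₁ * A₁') := by
      rw [hg', pow_add, ← hA23]
      conv_lhs => rw [hA]
      conv_rhs => rw [hA]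
      ring
    have h2 : c * B₀ = A₀ * σ.g * (B₀ * B₀') + b ^ (σ.e + v) * B₀ * h'' * 1 := by
      rw [hh'', hc₀]; ring
    rw [h1, h2]
    exact ((Nat.ModEq.refl _).mul hB₀'.symm).add ((Nat.ModEq.refl _).mul hA₁')
  have hcw : c / b ^ i % b ^ D.L = D.w := by
    have h1 : c₀ % b ^ (σ.e + v) < b ^ i :=
      lt_of_lt_of_le (Nat.mod_lt _ (by positivity)) (Nat.pow_le_pow_right hb0 hi1)
    rw [hc, Nat.add_mul_div_left _ _ (by positivity), Nat.div_eq_of_lt h1, Nat.zero_add,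
      Nat.add_mul_mod_self_left, Nat.mod_eq_of_lt D.hw]
  -- the high place
  have hd : 0 < σ.x₂ - σ.x₁ := sub_pos.2 h.hx
  obtain ⟨z, hz1, hz2⟩ := ((D.hpadd _ h.hA).and (exists_large (D := D) hb
    (2 * (b : ℚ) ^ D.L / ((σ.x₂ - σ.x₁) * q)))).exists
  rw [div_lt_iff₀ (mul_pos hd hq)] at hz2
  have hbL : (0 : ℚ) < (b : ℚ) ^ D.L := by positivity
  have hbz : (0 : ℚ) < (b : ℚ) ^ z := by positivity
  have hxz : 0 < (b : ℚ) ^ z * σ.x₁ * q := mul_pos (mul_pos hbz h.hx₁) hq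
  set n : ℕ := ⌊(b : ℚ) ^ z * σ.x₁ * q / (b : ℚ) ^ D.L⌋₊ + 1 with hn
  set t : ℕ := D.w + b ^ D.L * n with ht
  have hn1 : (b : ℚ) ^ z * σ.x₁ * q < (b : ℚ) ^ D.L * n := by
    have h1 := Nat.lt_floor_add_one ((b : ℚ) ^ z * σ.x₁ * q / (b : ℚ) ^ D.L)
    rw [div_lt_iff₀ hbL] at h1
    rw [hn]
    push_cast
    linarith
  have hn2 : (b : ℚ) ^ D.L * n ≤ (b : ℚ) ^ z * σ.x₁ * q + (b : ℚ) ^ D.L := by
    have h1 := Nat.floor_le (div_nonneg hxz.le hbL.le)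
    rw [le_div_iff₀ hbL] at h1
    rw [hn]
    push_cast
    linarith
  have htq : (t : ℚ) = D.w + (b : ℚ) ^ D.L * n := by rw [ht]; push_cast; ring
  have hwq : (D.w : ℚ) + 1 ≤ (b : ℚ) ^ D.L := by exact_mod_cast D.hw
  have hw0 : (0 : ℚ) ≤ D.w := by positivity
  have ht1 : (b : ℚ) ^ z * σ.x₁ * q < (t : ℚ) + 1 / 2 := by rw [htq]; linarith
  have ht2 : (t : ℚ) + 1 / 2 < (b : ℚ) ^ z * σ.x₂ * q := by
    have h1 : (b : ℚ) ^ z * ((σ.x₂ - σ.x₁) * q) =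
      (b : ℚ) ^ z * σ.x₂ * q - (b : ℚ) ^ z * σ.x₁ * q := by ring
    rw [h1] at hz2
    rw [htq]
    linarith
  set ℓ : ℕ := t + D.L with hℓ
  have htℓ : t < b ^ ℓ := lt_of_lt_of_le (Nat.lt_pow_self hb)
    (Nat.pow_le_pow_right hb0 (Nat.le_add_right _ _))
  refine ⟨⟨g', i + D.L, σ.M * B₀, max ((b : ℚ) ^ z * σ.x₁) ((t + 1 / 3) / q),
    min ((b : ℚ) ^ z * σ.x₂) ((t + 2 / 3) / q),
    {y | z + y ∈ σ.A ∧ (∀ h ≤ D.L, D.S (h + y) = D.S h ∧ D.out (h + y) = D.out h) ∧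
      i + D.L ≤ y}⟩, ?_, ?_, i, t, ℓ, c, ?_⟩
  · refine ⟨Nat.mul_pos h.hM hB₀, Nat.Coprime.mul_left h.hMb hB₀b, ?_, ?_, ?_⟩
    · exact lt_of_lt_of_le (mul_pos hbz h.hx₁) (le_max_left _ _)
    · have hm1 : max ((b : ℚ) ^ z * σ.x₁) ((t + 1 / 3) / q) < (t + 1 / 2) / q := by
        apply max_lt
        · rw [lt_div_iff₀ hq]; exact ht1
        · exact div_lt_div_of_pos_right (by linarith) hq
      have hm2 : ((t : ℚ) + 1 / 2) / q < min ((b : ℚ) ^ z * σ.x₂) ((t + 2 / 3) / q) := by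
        apply lt_min
        · rw [div_lt_iff₀ hq]; exact ht2
        · exact div_lt_div_of_pos_right (by linarith) hq
      exact hm1.trans hm2
    · filter_upwards [hz1, D.hrec D.L, D.hpK (i + D.L)] with y h1 h2 h3
      exact ⟨h1, h2, h3⟩
  · rintro k ⟨hk1, hk2, y, ⟨hy1, hy2, hy3⟩, hk3, hk4⟩
    simp only at hk1 hk2 hk3 hk4
    refine ⟨?_, (Dvd.intro _ rfl).trans hk2, z + y, hy1, ?_, ?_⟩
    · have hdvd : b ^ σ.e ∣ b ^ (i + D.L) := pow_dvd_pow b (by omega)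
      have h1 := hk1.of_dvd hdvd
      refine h1.trans ?_
      have h2 : b ^ σ.e * (A₃ * A₁' * B₀ * h'') ≡ 0 [MOD b ^ σ.e] := by
        rw [Nat.modEq_zero_iff_dvd]
        exact Dvd.intro _ rfl
      rw [hg']
      exact (Nat.ModEq.refl σ.g).add h2
    · have hby : (0 : ℚ) < (b : ℚ) ^ y := by positivity
      calc (b : ℚ) ^ (z + y) * σ.x₁ = (b : ℚ) ^ y * ((b : ℚ) ^ z * σ.x₁) := by
            rw [pow_add]; ring
        _ ≤ (b : ℚ) ^ y * max ((b : ℚ) ^ z * σ.x₁) ((t + 1 / 3) / q) :=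
            mul_le_mul_of_nonneg_left (le_max_left _ _) hby.le
        _ < k := hk3
    · have hby : (0 : ℚ) < (b : ℚ) ^ y := by positivity
      calc (k : ℚ) < (b : ℚ) ^ y * min ((b : ℚ) ^ z * σ.x₂) ((t + 2 / 3) / q) := hk4
        _ ≤ (b : ℚ) ^ y * ((b : ℚ) ^ z * σ.x₂) :=
            mul_le_mul_of_nonneg_left (min_le_left _ _) hby.le
        _ = (b : ℚ) ^ (z + y) * σ.x₂ := by rw [pow_add]; ring
  · rintro k ⟨hk1, hk2, y, ⟨hy1, hy2, hy3⟩, hk3, hk4⟩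
    simp only at hk1 hk2 hk3 hk4
    have hby : (0 : ℚ) < (b : ℚ) ^ y := by positivity
    obtain ⟨k', hk'⟩ : B₀ ∣ k := (Dvd.intro_left _ rfl).trans hk2
    have hNq : ((k' * A₀ : ℕ) : ℚ) = k * q := by
      rw [hk', hqn']
      push_cast
      field_simp
    have hlow : ((t : ℚ) + 1 / 3) * b ^ y < (k' * A₀ : ℕ) := by
      rw [hNq]
      have h1 : (b : ℚ) ^ y * ((t + 1 / 3) / q) < k :=
        lt_of_le_of_lt (mul_le_mul_of_nonneg_left (le_max_right _ _) hby.le) hk3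
      have h2 := mul_lt_mul_of_pos_right h1 hq
      have h3 : (b : ℚ) ^ y * ((t + 1 / 3) / q) * q = (t + 1 / 3) * b ^ y := by
        field_simp
      rwa [h3] at h2
    have hhigh : ((k' * A₀ : ℕ) : ℚ) < (t + 2 / 3) * b ^ y := by
      rw [hNq]
      have h1 : (k : ℚ) < (b : ℚ) ^ y * ((t + 2 / 3) / q) :=
        lt_of_lt_of_le hk4 (mul_le_mul_of_nonneg_left (min_le_right _ _) hby.le)
      have h2 := mul_lt_mul_of_pos_right h1 hq
      have h3 : (b : ℚ) ^ y * ((t + 2 / 3) / q) * q = (t + 2 / 3) * b ^ y := by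
        field_simp
      rwa [h3] at h2
    refine ⟨k' * A₀, y, hNq, ⟨fun x hx => (hi2 x hx.le).1, fun x hx => (hy2 x hx.le).1, hy3, htℓ,
      Nat.le_add_left _ _, ?_, hcw, ?_, ?_⟩, hlow, hhigh⟩
    · rw [ht, Nat.add_mul_mod_self_left, Nat.mod_eq_of_lt D.hw]
    · have h1 : k' * A₀ * B₀ ≡ c * B₀ [MOD b ^ (i + D.L)] := by
        have h2 : k' * A₀ * B₀ = A₀ * k := by rw [hk']; ring
        rw [h2]
        exact ((Nat.ModEq.refl _).mul hk1).trans hcg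
      have h3 : Nat.gcd (b ^ (i + D.L)) B₀ = 1 := (hB₀b.symm).pow_left _
      exact Nat.ModEq.cancel_right_of_coprime h3 h1
    · apply Nat.div_eq_of_lt_le
      · have h1 : ((t * b ^ y : ℕ) : ℚ) ≤ ((k' * A₀ : ℕ) : ℚ) := by
          refine le_trans ?_ hlow.le
          push_cast
          have : (0 : ℚ) ≤ 1 / 3 * (b : ℚ) ^ y := by positivity
          linarith
        exact_mod_cast h1
      · have h1 : ((k' * A₀ : ℕ) : ℚ) < (((t + 1) * b ^ y : ℕ) : ℚ) := by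
          refine lt_of_lt_of_le hhigh ?_
          push_cast
          have : (0 : ℚ) ≤ 1 / 3 * (b : ℚ) ^ y := by positivity
          linarith
        exact_mod_cast h1

variable (D)

omit [Finite Q] in
/-- the sequence of stages -/
theorem exists_stages (hb : 1 < b) : ∃ E : ℕ → Set ℕ, (∀ m, ∃ k ∈ E m, 0 < k) ∧
    (∀ m m', m ≤ m' → E m' ⊆ E m) ∧ ∀ q : ℚ, 0 < q → BI b q → ∃ m i t ℓ c : ℕ, ∀ k ∈ E m,
      ∃ N j : ℕ, (N : ℚ) = k * q ∧ D.Win i j t ℓ c N ∧ ((t : ℚ) + 1 / 3) * b ^ j < N ∧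
      (N : ℚ) < (t + 2 / 3) * b ^ j := by
  classical
  obtain ⟨f, hf⟩ := exists_surjective_nat ℚ
  have hnext : ∀ (m : ℕ) (σ : {σ : Stage // D.Valid σ}), ∃ σ' : {σ : Stage // D.Valid σ},
      σ'.1.E b ⊆ σ.1.E b ∧ (0 < f m → BI b (f m) → ∃ i t ℓ c : ℕ, ∀ k ∈ σ'.1.E b, ∃ N j : ℕ,
      (N : ℚ) = k * (f m) ∧ D.Win i j t ℓ c N ∧ ((t : ℚ) + 1 / 3) * b ^ j < N ∧
      (N : ℚ) < (t + 2 / 3) * b ^ j) := by
    intro m σ
    by_cases h : 0 < f m ∧ BI b (f m)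
    · obtain ⟨σ', h1, h2, h3⟩ := refine_stage hb σ.2 h.1 h.2
      exact ⟨⟨σ', h1⟩, h2, fun _ _ => h3⟩
    · exact ⟨σ, subset_rfl, fun h1 h2 => absurd ⟨h1, h2⟩ h⟩
  choose nxt hnxt1 hnxt2 using hnext
  have h0 : D.Valid ⟨0, 0, 1, 1, 2, Set.univ⟩ :=
    ⟨one_pos, Nat.coprime_one_left b, one_pos, by norm_num, Eventually.of_forall fun _ => trivial⟩
  obtain ⟨σ, hσ⟩ : ∃ σ : ℕ → {σ : Stage // D.Valid σ}, ∀ m, σ (m + 1) = nxt m (σ m) :=
    ⟨fun m => Nat.rec ⟨_, h0⟩ (fun m s => nxt m s) m, fun _ => rfl⟩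
  refine ⟨fun m => (σ m).1.E b, fun m => stage_nonempty hb (σ m).2, ?_, ?_⟩
  · intro m m' h
    induction m', h using Nat.le_induction with
    | base => exact subset_rfl
    | succ n _ ih =>
      refine subset_trans ?_ ih
      simp only [hσ]
      exact hnxt1 n (σ n)
  · intro q hq hqb
    obtain ⟨m, rfl⟩ := hf q
    obtain ⟨i, t, ℓ, c, h⟩ := hnxt2 m (σ m) hq hqb
    refine ⟨m + 1, i, t, ℓ, c, ?_⟩
    simp only [hσ]
    exact h

end LimAut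

end Pool.Agent.Work.MP_0f91f8_co.Aut
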